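import Pool.Agent.Lib.MP_305fdd_al.F2.S.Stm

/-!
# MP_305fdd_al, F_2 project, section S: the piece [F2S fl]

The flags at a rational point of a chart.
-/

set_option autoImplicit false

namespace Pool.Agent.F2S

open Pool.Agent.F2Ch Pool.Agent.F2 Pool.Agent.F2W Pool.Agent.F2D Pool.Agent.F2RF Polynomial

private theorem fl_mono : Monotone (fun a : ℤ ×ₗ ℤ => (ofLex a).1) := by
  intro a b h
  exact Prod.Lex.monotone_fst a b h

private theorem fl_add (a b : ℤ ×ₗ ℤ) : (ofLex (a + b)).1 = (ofLex a).1 + (ofLex b).1 := rfl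

private theorem fl_smul (n : ℕ) (a : ℤ ×ₗ ℤ) : (ofLex (n • a)).1 = n • (ofLex a).1 := rfl

private theorem fl_wt (u e : Fin 2 → ℤ) (m : Fin 2 → ℤ) :
    wt (fun i => (toLex (u i, e i) : ℤ ×ₗ ℤ)) m = toLex (wt u m, wt e m) := by
  simp only [wt, Fin.sum_univ_two]
  rfl

private theorem fl_sub (u e : Fin 2 → ℤ) (m m' : Fin 2 → ℤ) :
    (toLex (wt u m, wt e m) : ℤ ×ₗ ℤ) - toLex (wt u m', wt e m') =
      toLex (wt u (m - m'), wt e (m - m')) := by
  have h : ∀ v : Fin 2 → ℤ, wt v (m - m') = wt v m - wt v m' := by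
    intro v
    simp only [wt, Fin.sum_univ_two, Pi.sub_apply, smul_eq_mul]
    ring
  rw [h, h]
  rfl

theorem p_fl : S_fl := by
  intro p k K κ Γ _ _ _ _ _ _ _ _ n g hg φ V x ex ac φb N L hC u w hN hw e
  have hN2 : Good N (fun i => (toLex (u i, e i) : ℤ ×ₗ ℤ)) := by
    intro m hm
    rw [fl_wt]
    have h1 := hN m hm
    have h0 : (0 : ℤ ×ₗ ℤ) = toLex (0, 0) := rfl
    rw [h0, Prod.Lex.toLex_lt_toLex]
    exact Or.inl h1
  obtain ⟨W, hW, hWx⟩ := hC.cell (ℤ ×ₗ ℤ) (fun i => toLex (u i, e i)) hN2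
  have hW1 : OnCh k p φ g L u (fun f => (ofLex (W f)).1) := by
    refine ⟨⟨⟨?_, ?_, ?_⟩, ?_, ?_⟩, ?_⟩
    · show (ofLex (W 0)).1 = 0
      rw [hW.inz.isv.zero]
      rfl
    · intro a b ha hb
      show (ofLex (W (a * b))).1 = _
      rw [hW.inz.isv.mul a b ha hb]
      rfl
    · intro a b ha hb hab
      have h1 := fl_mono (hW.inz.isv.add a b ha hb hab)
      have h2 := fl_mono.map_min (a := W a) (b := W b)
      simp only at h1 h2 ⊢
      rw [← h2]
      exact h1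
    · intro c
      show (ofLex (W (algebraMap k K c))).1 = 0
      rw [hW.inz.triv c]
      rfl
    · intro f hf
      exact fl_mono (hW.inz.compat f hf)
    · intro q hq
      obtain ⟨h1, m, hm, h2⟩ := hW.min q hq
      refine ⟨fun m' hm' => ?_, m, hm, ?_⟩
      · have h3 := fl_mono (h1 m' hm')
        simp only [fl_wt] at h3
        exact h3
      · show (ofLex (W _)).1 = _
        rw [h2, fl_wt]
        rfl
  have hWw : (fun f => (ofLex (W f)).1) = w := hC.uniq ℤ u _ w hW1 hw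
  refine ⟨W, hW, hWx, fun f => congrFun hWw f, fun f hf => ?_⟩
  obtain ⟨a, b, hb, hab⟩ := hg f
  have ha : MvPolynomial.aeval g a ≠ 0 := by
    rw [← hab]
    exact mul_ne_zero hf hb
  obtain ⟨-, m1, -, h1⟩ := hW.min a ha
  obtain ⟨-, m2, -, h2⟩ := hW.min b hb
  refine ⟨m1 - m2, ?_⟩
  have h3 : W (MvPolynomial.aeval g a) = W f + W (MvPolynomial.aeval g b) := by
    rw [← hab]
    exact hW.inz.isv.mul f _ hf hb
  have h4 : W f = W (MvPolynomial.aeval g a) - W (MvPolynomial.aeval g b) := by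
    rw [h3, add_sub_cancel_right]
  rw [h4, h1, h2, fl_wt, fl_wt, fl_sub]

end Pool.Agent.F2S
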