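import Pool.Agent.Lib.MP_305fdd_al.F2.S.Stm

/-!
[F2S n0] The exponents of weight zero (MP_305fdd_al, F_2, section S).
-/

set_option autoImplicit false

namespace Pool.Agent.F2S

open Pool.Agent.F2Ch Pool.Agent.F2 Pool.Agent.F2W Pool.Agent.F2D Pool.Agent.F2RF Polynomial

theorem p_n0 : S_n0 := by
  intro u hu
  have hwt : ∀ m : Fin 2 → ℤ, wt u m = m 0 * u 0 + m 1 * u 1 := by
    intro m
    simp only [wt, Fin.sum_univ_two, smul_eq_mul]
  have hg : 0 < Int.gcd (u 0) (u 1) := by
    rw [Int.gcd_pos_iff]
    by_contra h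
    push Not at h
    apply hu
    funext i
    fin_cases i
    · exact h.1
    · exact h.2
  obtain ⟨g, a, b, hg0, hcop, ha, hb⟩ := Int.exists_gcd_one' hg
  have hgne : (g : ℤ) ≠ 0 := by
    exact_mod_cast hg0.ne'
  have hbez := Int.gcd_eq_gcd_ab a b
  rw [hcop] at hbez
  push_cast at hbez
  refine ⟨![b, -a], ?_, ?_⟩
  · intro h
    have h0 : b = 0 := by simpa using congrFun h 0
    have h1 : a = 0 := by simpa using congrFun h 1
    rw [h0, h1] at hbez
    simp at hbez
  · intro m
    rw [hwt, ha, hb]
    constructor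
    · intro h
      have h2 : m 0 * a + m 1 * b = 0 := by
        have h3 : (m 0 * a + m 1 * b) * g = 0 := by linarith
        rcases mul_eq_zero.mp h3 with h4 | h4
        · exact h4
        · exact absurd h4 hgne
      refine ⟨m 0 * Int.gcdB a b - m 1 * Int.gcdA a b, ?_⟩
      funext i
      fin_cases i
      · simp only [Fin.zero_eta, Pi.smul_apply, Matrix.cons_val_zero, smul_eq_mul]
        linear_combination (m 0) * hbez + (Int.gcdA a b) * h2
      · simp only [Fin.mk_one, Pi.smul_apply, Matrix.cons_val_one, Matrix.cons_val_zero,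
          smul_eq_mul]
        linear_combination (m 1) * hbez + (Int.gcdB a b) * h2
    · rintro ⟨j, rfl⟩
      simp only [Pi.smul_apply, Matrix.cons_val_zero, Matrix.cons_val_one, smul_eq_mul]
      ring

end Pool.Agent.F2S
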