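import Pool.Agent.Lib.MP_305fdd_al.F2.S.Stm

/-!
[F2S nl] Nonconstant monomials are killed (MP_305fdd_al, F_2, section S).
-/

set_option autoImplicit false

namespace Pool.Agent.F2S

open Pool.Agent.F2Ch Pool.Agent.F2 Pool.Agent.F2W Pool.Agent.F2D Pool.Agent.F2RF Polynomial

theorem p_nl : S_nl := by
  intro p _ κ1 κ _ _ _ φ1 φ y hT
  have hp : 2 ≤ p := (Fact.out : p.Prime).two_le
  have h0 : φ 0 = 0 := by
    have h := hT.pinv.add 0 0
    rw [add_zero] at h
    exact left_eq_add.mp h
  have h00 : ∀ N : ℕ, φ^[N] 0 = 0 := by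
    intro N
    induction N with
    | zero => rfl
    | succ N ih => rw [Function.iterate_succ_apply, h0, ih]
  have key : ∀ (n : ℕ) (c : κ1) (j : ℤ), j ≠ 0 → j.natAbs ≤ n →
      ∃ N0 : ℕ, ∀ N, N0 ≤ N → φ^[N] (algebraMap κ1 κ c * y ^ j) = 0 := by
    intro n
    induction n with
    | zero =>
      intro c j hj hn
      exact absurd (Int.natAbs_eq_zero.mp (Nat.le_zero.mp hn)) hj
    | succ n ih =>
      intro c j hj hn
      by_cases hd : (p : ℤ) ∣ j
      · obtain ⟨m, rfl⟩ := hd
        have hm : m ≠ 0 := by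
          rintro rfl
          exact hj (mul_zero _)
        have hlt : m.natAbs < ((p : ℤ) * m).natAbs := by
          rw [Int.natAbs_mul, Int.natAbs_natCast]
          have h1 : 0 < m.natAbs := Int.natAbs_pos.mpr hm
          nlinarith
        obtain ⟨N0, hN0⟩ := ih (φ1 c) m hm (by omega)
        refine ⟨N0 + 1, fun N hN => ?_⟩
        obtain ⟨N', rfl⟩ : ∃ N', N = N' + 1 := ⟨N - 1, by omega⟩
        rw [Function.iterate_succ_apply, hT.tor]
        exact hN0 N' (by omega)
      · refine ⟨1, fun N hN => ?_⟩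
        obtain ⟨N', rfl⟩ : ∃ N', N = N' + 1 := ⟨N - 1, by omega⟩
        rw [Function.iterate_succ_apply, hT.tor0 c j hd, h00]
  intro c j hj
  exact key j.natAbs c j hj le_rfl

end Pool.Agent.F2S
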