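import Pool.Agent.Lib.MP_305fdd_al.F2.S.Stm

/-!
# MP_305fdd_al, F_2 project, section S: the piece [F2S rh]
-/

set_option autoImplicit false

namespace Pool.Agent.F2S

open Pool.Agent.F2Ch Pool.Agent.F2 Pool.Agent.F2W Pool.Agent.F2D Pool.Agent.F2RF Polynomial

section
variable {K Γ : Type} [Field K] [AddCommGroup Γ] [LinearOrder Γ] [IsOrderedAddMonoid Γ] {w : K → Γ}

private theorem rh_one (hw : IsV w) : w 1 = 0 := by
  have h := hw.mul 1 1 one_ne_zero one_ne_zero
  rw [mul_one] at h
  exact left_eq_add.1 h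

private theorem rh_negone (hw : IsV w) : w (-1) = 0 := by
  have h := hw.mul (-1) (-1) (neg_ne_zero.2 one_ne_zero) (neg_ne_zero.2 one_ne_zero)
  rw [neg_mul_neg, mul_one, rh_one hw] at h
  rcases lt_trichotomy (w (-1)) 0 with h1 | h1 | h1
  · exact absurd h (ne_of_gt (add_neg h1 h1))
  · exact h1
  · exact absurd h (ne_of_lt (add_pos h1 h1))

private theorem rh_neg (hw : IsV w) (x : K) : w (-x) = w x := by
  by_cases hx : x = 0
  · rw [hx, neg_zero]
  · have h := hw.mul (-1) x (neg_ne_zero.2 one_ne_zero) hx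
    rw [neg_one_mul, rh_negone hw, zero_add] at h
    exact h

end

theorem p_rh : S_rh := by
  intro k K Γ κ _ _ _ _ _ _ _ _ w hw r x ac hac
  have hmul : ∀ a b : K, Ge w 0 a → Ge w 0 b → Ge w 0 (a * b) := by
    intro a b ha hb
    rcases ha with ha | ha
    · left; rw [ha, zero_mul]
    rcases hb with hb | hb
    · left; rw [hb, mul_zero]
    by_cases ha0 : a = 0
    · left; rw [ha0, zero_mul]
    by_cases hb0 : b = 0
    · left; rw [hb0, mul_zero]
    right
    rw [hw.mul a b ha0 hb0]
    exact add_nonneg ha hb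
  have hadd : ∀ a b : K, Ge w 0 a → Ge w 0 b → Ge w 0 (a + b) := by
    intro a b ha hb
    rcases ha with ha | ha
    · rw [ha, zero_add]; exact hb
    rcases hb with hb | hb
    · rw [hb, add_zero]; exact Or.inr ha
    by_cases ha0 : a = 0
    · rw [ha0, zero_add]; exact Or.inr hb
    by_cases hb0 : b = 0
    · rw [hb0, add_zero]; exact Or.inr ha
    by_cases hab : a + b = 0
    · exact Or.inl hab
    right
    exact le_trans (le_min ha hb) (hw.add a b ha0 hb0 hab)
  let O : Subring K :=
    { carrier := {f | Ge w 0 f}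
      mul_mem' := fun {a b} ha hb => hmul a b ha hb
      one_mem' := Or.inr (by rw [rh_one hw])
      add_mem' := fun {a b} ha hb => hadd a b ha hb
      zero_mem' := Or.inl rfl
      neg_mem' := by
        intro a ha
        rcases ha with ha | ha
        · left; rw [ha, neg_zero]
        · right; rw [rh_neg hw]; exact ha }
  have hO : ∀ f, f ∈ O ↔ Ge w 0 f := fun f => Iff.rfl
  have l1 : lc w ac 0 (1 : K) = 1 := by
    unfold lc
    rw [if_pos ⟨one_ne_zero, rh_one hw⟩]
    have := hac.alg 1
    rw [map_one, map_one] at this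
    exact this
  have l0 : lc w ac 0 (0 : K) = 0 := by
    unfold lc
    rw [if_neg (fun h => h.1 rfl)]
  have lpos : ∀ f : K, Gt w 0 f → lc w ac 0 f = 0 := by
    intro f hf
    rcases hf with hf | hf
    · rw [hf, l0]
    · unfold lc
      rw [if_neg (fun h => (ne_of_gt hf) h.2)]
  have lmul : ∀ a b : K, Ge w 0 a → Ge w 0 b → lc w ac 0 (a * b) = lc w ac 0 a * lc w ac 0 b := by
    intro a b ha hb
    by_cases ha0 : a = 0
    · rw [ha0, zero_mul, l0, zero_mul]
    by_cases hb0 : b = 0
    · rw [hb0, mul_zero, l0, mul_zero]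
    have ha' : 0 ≤ w a := ha.resolve_left ha0
    have hb' : 0 ≤ w b := hb.resolve_left hb0
    rcases ha'.eq_or_lt with ha1 | ha1
    · rcases hb'.eq_or_lt with hb1 | hb1
      · unfold lc
        rw [if_pos ⟨mul_ne_zero ha0 hb0, by rw [hw.mul a b ha0 hb0, ← ha1, ← hb1, add_zero]⟩,
          if_pos ⟨ha0, ha1.symm⟩, if_pos ⟨hb0, hb1.symm⟩, hac.mul]
      · rw [lpos b (Or.inr hb1), mul_zero]
        apply lpos
        right
        rw [hw.mul a b ha0 hb0]
        exact add_pos_of_nonneg_of_pos ha' hb1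
    · rw [lpos a (Or.inr ha1), zero_mul]
      apply lpos
      right
      rw [hw.mul a b ha0 hb0]
      exact add_pos_of_pos_of_nonneg ha1 hb'
  let ρ : O →+* κ :=
    { toFun := fun f => lc w ac 0 (f : K)
      map_one' := l1
      map_mul' := fun a b => lmul a b a.2 b.2
      map_zero' := l0
      map_add' := fun a b => hac.add 0 a b a.2 b.2 }
  exact ⟨O, ρ, hO, fun f => rfl⟩

end Pool.Agent.F2S
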