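import Pool.Agent.Lib.MP_305fdd_al.F2.S.Defs
import Pool.Agent.Lib.MP_305fdd_al.F2.W.Stm4
import Pool.Agent.Lib.MP_305fdd_al.F2.D.StmB

/-!
# MP_305fdd_al, F_2 project, section S (Lemma S): the pieces [F2S ..]

Every `def S_xx : Prop` is one independent piece; its docstring contains the complete proof.  The other
statements may be taken as hypotheses (put them in front, in the order in which they are listed in the docstring).

Conventions: `IsV`, `Ge`, `Gt`, `lc`, `wt`, `Good`, `IsMinW`, `part` as in `F2/ChDefs.lean`, `OnCh`, `LForm`, `Chart`, `InZ` as in `F2/ChApi.lean`.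
`w : K → ℤ` is the valuation of integer weight `u` in a chart with two coordinates; `W : K → ℤ ×ₗ ℤ` is the valuation of weight `(u i, e i)`.
`Fra p k B res φ` (`F2/W/Defs.lean`): `K = Frac B` and `(φ^N f)^(p^N) = ct (res f)` for `f ∈ B`, `N ≥ N(f)`.
Facts used all the time: for `IsV v`: `v 1 = 0`, `v (-1) = 0`, `v x⁻¹ = - v x`, `v (x ^ n) = n v x`; `{f | Ge v 0 f}` is closed under sums and products.
-/

set_option autoImplicit false

namespace Pool.Agent.F2S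

open Pool.Agent.F2Ch Pool.Agent.F2 Pool.Agent.F2W Pool.Agent.F2D Pool.Agent.F2RF Polynomial

/-- [F2S n0] (about 50 lines) The exponents of weight zero.

Proof. `wt u m = m 0 * u 0 + m 1 * u 1`. `d = gcd (u 0) (u 1) > 0`, `u = d u'`, `n0 = ![u' 1, - u' 0]`, `≠ 0`. If `wt u m = 0` then `m 0 * u' 0 = - m 1 * u' 1` with `u' 0`, `u' 1` coprime, so
`u' 1 ∣ m 0`, `u' 0 ∣ m 1`: if `u' 0 s + u' 1 t = 1` then `j = t m 0 - s m 1` satisfies `j u' 1 = m 0` and `- j u' 0 = m 1` (insert `m 0 u' 0 = - m 1 u' 1`). The converse is clear. -/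
def S_n0 : Prop :=
  ∀ u : Fin 2 → ℤ, u ≠ 0 → ∃ n0 : Fin 2 → ℤ, n0 ≠ 0 ∧
    ∀ m : Fin 2 → ℤ, wt u m = 0 ↔ ∃ j : ℤ, m = j • n0

/-- [F2S fl] (about 120 lines) The flags at a rational point of a chart.

Proof. `u₂ i = toLex (u i, e i)`; `wt u₂ m = toLex (wt u m, wt e m)`; `Good N u` gives `Good N u₂` (the first component is positive). `Chart.cell` (for `ℤ ×ₗ ℤ`) gives `W` with `OnCh` and `W (x i) = u₂ i`. Let `w1 f = (ofLex (W f)).1`. `w1` is in `InZ`: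
`IsV`, `Triv`, `Compat` pass to the first component (`toLex` order: `a ≤ b` implies `a.1 ≤ b.1`; `min`). `OnCh` for `w1` and `u`: the first component of the minimum of the `wt u₂ m` is the minimum of the `wt u m`. `Chart.uniq` (for `ℤ`): `w1 = w`.
Last statement: for `f = aeval g q ≠ 0` it is `OnCh.min`; every `f ≠ 0` is a quotient `a / b` of such elements (`FracGen`) and `W f = W a - W b`. -/
def S_fl : Prop :=
  ∀ (p : ℕ) (k K κ Γ : Type) [Field k] [Field K] [Algebra k K] [Field κ] [Algebra k κ]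
    [AddCommGroup Γ] [LinearOrder Γ] [IsOrderedAddMonoid Γ] (n : ℕ) (g : Fin n → K), FracGen k g →
    ∀ (φ : K → K) (V : K → Γ) (x : Fin 2 → K) (ex : K → Fin 2 → ℤ) (ac : K → κ) (φb : κ → κ)
      (N : Set (Fin 2 → ℤ)) (L : K → AddMonoidAlgebra κ (Fin 2 → ℤ)),
    Chart k p φ g V x ex ac φb N L → ∀ (u : Fin 2 → ℤ) (w : K → ℤ), Good N u →
    OnCh k p φ g L u w → ∀ e : Fin 2 → ℤ, ∃ W : K → ℤ ×ₗ ℤ,
      OnCh k p φ g L (fun i => toLex (u i, e i)) W ∧ (∀ i, W (x i) = toLex (u i, e i)) ∧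
      (∀ f, (ofLex (W f)).1 = w f) ∧
      ∀ f, f ≠ 0 → ∃ m : Fin 2 → ℤ, W f = toLex (wt u m, wt e m)

/-- [F2S we] (about 30 lines) An element whose exponents of minimal weight reduce to `0` has value zero for all flags.

Proof. `z = aeval g q ≠ 0`. `OnCh.min` for `w`: `0 = w z = wt u m` for some exponent `m` of `L z`; by hypothesis `m = 0`, so `0` is an exponent of `L z`. `OnCh.min` for `W`: `W z` is the minimum of the `toLex (wt u m, wt e m)`; for `m = 0` this is `0`, for all others the first component is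
positive. So `W z = 0`. -/
def S_we : Prop :=
  ∀ (p : ℕ) (k K κ : Type) [Field k] [Field K] [Algebra k K] [Field κ] (n : ℕ) (g : Fin n → K)
    (φ : K → K) (L : K → AddMonoidAlgebra κ (Fin 2 → ℤ)) (u e : Fin 2 → ℤ) (w : K → ℤ)
    (W : K → ℤ ×ₗ ℤ), OnCh k p φ g L u w → OnCh k p φ g L (fun i => toLex (u i, e i)) W →
    ∀ q : MvPolynomial (Fin n) k, MvPolynomial.aeval g q ≠ 0 → w (MvPolynomial.aeval g q) = 0 →
    (∀ m, (L (MvPolynomial.aeval g q)).coeff m ≠ 0 → m = 0 ∨ 0 < wt u m) →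
    W (MvPolynomial.aeval g q) = 0

/-- [F2S tr] (about 60 lines) Uses S_X2 (section C), S_Z3 (section W). The residue field of a flag has transcendence degree at most one.

Proof. X2 for `W` (`d = 3`): a chart with `r + s = 3`, basis `x'` (`IsVB`), residue field `κ'` with `IsAC`, `trdeg κ' = s`. `r ≥ 2`: otherwise `W x1`, `W x2` are integer multiples of one element (`IsVB.gen`, `r ≤ 1`; for `r = 0` they are `0`), `W x1 = a γ`, `W x2 = b γ`, so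
`b W x1 - a W x2 = 0` and the hypothesis gives `a = b = 0`, so `W x1 = 0`, `1 • W x1 + 0 • W x2 = 0`: contradiction. So `s ≤ 1`; Z3. -/
def S_tr : Prop :=
  ∀ (p : ℕ) [Fact p.Prime] (k K : Type) [Field k] [CharP k p] [PerfectRing k p] [Field K]
    [Algebra k K] (n : ℕ) (g : Fin n → K), FracGen k g → ∀ (b0 : Fin (p ^ 3) → K)
    (ρ0 : Fin (p ^ 3) → K → K), IsPB p b0 ρ0 → ∀ φ : K → K, IsPinv p φ → φ 1 = 1 →
    ∀ W : K → ℤ ×ₗ ℤ, InZ k p φ W → ∀ x1 x2 : K, x1 ≠ 0 → x2 ≠ 0 →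
    (∀ a b : ℤ, a • W x1 + b • W x2 = 0 → a = 0 ∧ b = 0) →
    ∀ f h : K, Ge W 0 f → Ge W 0 h → ∃ P : MvPolynomial (Fin 2) k, P ≠ 0 ∧
      Gt W 0 (MvPolynomial.aeval ![f, h] P)

/-- [F2S tr2] (about 40 lines) Uses S_X2 (section C), S_Z7 (section W). The residue field of a nontrivial valuation has transcendence degree at most two.

Proof. X2 for `w`: `r + s = 3`; `r ≥ 1` because `w` is not trivial (`r = 0`: `IsVB.gen` gives `w = 0`). So `trdeg κ' = s ≤ 2`; Z7. -/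
def S_tr2 : Prop :=
  ∀ (p : ℕ) [Fact p.Prime] (k K : Type) [Field k] [CharP k p] [PerfectRing k p] [Field K]
    [Algebra k K] (n : ℕ) (g : Fin n → K), FracGen k g → ∀ (b0 : Fin (p ^ 3) → K)
    (ρ0 : Fin (p ^ 3) → K → K), IsPB p b0 ρ0 → ∀ φ : K → K, IsPinv p φ → φ 1 = 1 →
    ∀ w : K → ℤ, InZ k p φ w → (∃ f, w f ≠ 0) →
    ∀ f h h' : K, Ge w 0 f → Ge w 0 h → Ge w 0 h' → ∃ P : MvPolynomial (Fin 3) k, P ≠ 0 ∧
      Gt w 0 (MvPolynomial.aeval ![f, h, h'] P)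

/-- [F2S hs] (about 60 lines) Uses S_A1 (section D). At a semi-good point some element of the ideal has value zero.

Proof. Suppose not. Apply A1 with `v = w` (`Disc w` with `γ = 1`). Let `0 ≤ w (T l)`, `cl l = 1`; `t ∈ B`, `t = T l`, `res t = ee 0 = 2` (`ee k 0 = single 0 1 + single 0 1`). `h = t - 2 ∈ B`, `res h = 0`, `Ge w 0 h` (`w` is trivial on constants). If `h ≠ 0` then `0 ≤ w h ≤ 0`, a contradiction. So
`T l = 2`, and `π l = 1` by `Grp.two`. A1 gives `OntoF2 Λ`: a contradiction. -/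
def S_hs : Prop :=
  ∀ (k K Λ M : Type) [Field k] [Field K] [Algebra k K] [Group Λ] [Group M]
    (B : Subalgebra k K) (res : B →ₐ[k] Lau k) (T : Λ → K) (cl : Λ →* Multiplicative (ℤ × ℤ))
    (π : Λ →* M), Grp T cl π → Rst k B res T cl → ¬ OntoF2 Λ → ∀ w : K → ℤ, IsV w → Triv k w →
    (∀ f : B, (f : K) ≠ 0 → w (f : K) ≤ 0) → ∃ h : B, res h = 0 ∧ (h : K) ≠ 0 ∧ w (h : K) = 0

/-- [F2S dp] (about 60 lines) Uses S_Z6 (section W). At a semi-good point the elliptic classes are pairwise dependent.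

Proof. Let `c, d` be the classes of `l, l'`, `c.1 d.2 ≠ c.2 d.1`. If `m c + n d = 0` then `m = n = 0` (determinant). Z6 for `t, t'` with `res t = ee c`, `res t' = ee d`, and `f = h`: `Gt w 0 h`, against `h ≠ 0`, `w h = 0`. -/
def S_dp : Prop :=
  ∀ (p : ℕ) [Fact p.Prime], p ≠ 2 → ∀ (k K Λ : Type) [Field k] [CharP k p] [Field K] [Algebra k K]
    [Group Λ] (B : Subalgebra k K) (res : B →ₐ[k] Lau k) (φ : K → K), Fra p k B res φ →
    ∀ (T : Λ → K) (cl : Λ →* Multiplicative (ℤ × ℤ)), Rst k B res T cl →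
    ∀ w : K → ℤ, IsV w → Triv k w → Compat p φ w →
    (∀ f h h' : K, Ge w 0 f → Ge w 0 h → Ge w 0 h' → ∃ P : MvPolynomial (Fin 3) k, P ≠ 0 ∧
      Gt w 0 (MvPolynomial.aeval ![f, h, h'] P)) →
    (∃ h : B, res h = 0 ∧ (h : K) ≠ 0 ∧ w (h : K) = 0) →
    ∀ l l', 0 ≤ w (T l) → 0 ≤ w (T l') → Dpd (cl l) (cl l')

/-- [F2S sg] (about 120 lines) One of two opposite flags at a semi-good point is negative on the ideal.

Proof. Suppose there are `f, f' ∈ B`, nonzero, `res f = res f' = 0`, `0 ≤ W f` and `0 ≤ W' f'`. The first components are `w f, w f' ≥ 0`, so `= 0` by `hneg`. By hypothesis `0 < W f`, `0 < W' f'`, so `W f = (0, c)`, `W' f' = (0, c')` with `c, c' > 0`.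
`W' f = (0, - a)` with `a > 0`: `f = aeval g q`; let `m` be an exponent of `L f` with `W' f = toLex (wt u m, wt (-e) m)` (`OnCh.min` for `W'`), so `wt u m = w f = 0`; `OnCh.min` for `W`: `(0, c) = W f ≤ toLex (wt u m, wt e m) = (0, wt e m)`, so
`- a := wt (-e) m = - wt e m ≤ - c < 0`. Now `h = f ^ c' * f' ^ a` (natural exponents `c'.toNat`, `a.toNat`, both `≥ 1`): `h ∈ B`, `h ≠ 0`, `res h = 0`, `W' h = c' (0, - a) + a (0, c') = 0`, so `Ge W' 0 h`, so `Gt W' 0 h`: a contradiction. -/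
def S_sg : Prop :=
  ∀ (p : ℕ) (k K κ : Type) [Field k] [Field K] [Algebra k K] [Field κ] (n : ℕ) (g : Fin n → K)
    (φ : K → K) (L : K → AddMonoidAlgebra κ (Fin 2 → ℤ)) (B : Subalgebra k K)
    (res : B →ₐ[k] Lau k), (∀ f : B, ∃ q : MvPolynomial (Fin n) k, MvPolynomial.aeval g q = (f : K)) →
    ∀ (u e : Fin 2 → ℤ) (w : K → ℤ) (W W' : K → ℤ ×ₗ ℤ),
    OnCh k p φ g L (fun i => toLex (u i, e i)) W →
    OnCh k p φ g L (fun i => toLex (u i, (-e) i)) W' → (∀ f, (ofLex (W f)).1 = w f) →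
    (∀ f, (ofLex (W' f)).1 = w f) → (∀ f : B, (f : K) ≠ 0 → w (f : K) ≤ 0) →
    (∀ f : B, res f = 0 → Ge W 0 (f : K) → Gt W 0 (f : K)) →
    (∀ f : B, res f = 0 → Ge W' 0 (f : K) → Gt W' 0 (f : K)) →
    (∀ f : B, res f = 0 → Ge W 0 (f : K) → (f : K) = 0) ∨
      ∀ f : B, res f = 0 → Ge W' 0 (f : K) → (f : K) = 0

/-- [F2S rh] (about 80 lines) The residue map as a ring homomorphism.

Proof. `O = {f | Ge w 0 f}`: subring by `IsV`. `ρ f = lc w ac 0 f`. `ρ 1 = ac 1 = algebraMap 1 = 1` (`IsAC.alg`, `w 1 = 0`). Additive: `IsAC.add` for `γ = 0`. Multiplicative: if `f, g ≠ 0`, `w f = w g = 0` then `w (f g) = 0` and `IsAC.mul`; otherwise one of them is `0` or has positive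
value, then so does the product, and both sides are `0`. -/
def S_rh : Prop :=
  ∀ (k K Γ κ : Type) [Field k] [Field K] [Algebra k K] [AddCommGroup Γ] [LinearOrder Γ]
    [IsOrderedAddMonoid Γ] [Field κ] [Algebra k κ] (w : K → Γ), IsV w → ∀ (r : ℕ) (x : Fin r → K)
    (ac : K → κ), IsAC k w x ac → ∃ (O : Subring K) (ρ : O →+* κ), (∀ f, f ∈ O ↔ Ge w 0 f) ∧
      ∀ f : O, ρ f = lc w ac 0 (f : K)

/-- [F2S pr] (about 80 lines) Traces of powers.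

Proof. By `PC.rel` with `g = l ^ m`, `h = l`: `T (l ^ (m+1)) = T l * T (l ^ m) - T (l ^ (m-1))` for all `m : ℤ`, and `T (l ^ 0) = 2`, `T (l ^ 1) = T l`; also `T (l ^ (-m)) = T (l ^ m)` (`rel` with `g = 1`: `T h + T h⁻¹ = 2 T h`). So it is enough to treat natural exponents, by induction on two consecutive
ones. Membership in `O`: clear. If `ρ (T l) = Ψ + Ψ⁻¹` then `s m = Ψ ^ m + Ψ ^ (-m)` satisfies the same recursion. If `ρ (T l) ∈ S` then all `ρ (T (l ^ m)) ∈ S` (`2 ∈ S`). -/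
def S_pr : Prop :=
  ∀ (Λ K κ : Type) [Group Λ] [Field K] [Field κ] (T : Λ → K), PC T → ∀ (O : Subring K)
    (ρ : O →+* κ) (l : Λ) (hl : T l ∈ O) (m : ℤ), ∃ h : T (l ^ m) ∈ O,
      (∀ Ψ : κ, Ψ ≠ 0 → ρ ⟨T l, hl⟩ = Ψ + Ψ⁻¹ → ρ ⟨T (l ^ m), h⟩ = Ψ ^ m + Ψ ^ (-m)) ∧
      ∀ S : Subring κ, ρ ⟨T l, hl⟩ ∈ S → ρ ⟨T (l ^ m), h⟩ ∈ S

/-- [F2S nl] (about 40 lines) Nonconstant monomials are killed.

Proof. `φ 0 = 0` (additive), so `φ^[N] 0 = 0`. Strong induction on `|j|`. If `p ∤ j` then `φ (c y ^ j) = 0` (`tor0`): `N0 = 1`. If `j = p m`: `φ (c y ^ j) = φ1 c * y ^ m` (`tor`), `m ≠ 0`, `|m| < |j|`: `N0 = N0' + 1` (`Function.iterate_succ_apply`). -/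
def S_nl : Prop :=
  ∀ (p : ℕ) [Fact p.Prime] (κ1 κ : Type) [Field κ1] [Field κ] [Algebra κ1 κ] (φ1 : κ1 → κ1)
    (φ : κ → κ) (y : κ), Tor p κ1 φ1 φ y → ∀ (c : κ1) (j : ℤ), j ≠ 0 →
    ∃ N0 : ℕ, ∀ N, N0 ≤ N → φ^[N] (algebraMap κ1 κ c * y ^ j) = 0

/-- [F2S rf] (about 150 lines) Uses S_X1, S_X2 (section C), S_R7, S_R8 (section W). The residue field of `w` and the residues of the elements of `k[g]`.

Proof. `CharP κ p` from `k` (`charP_of_injective_algebraMap`). X1: `Φ` with `IsTor p φb Φ`. `Chart.lform` for `ℤ`, `u`, `w`: `AC` with `LForm`. X2 for `w`: `κ', x', ac', φ'` with `IsAC` and the residual property (fields `isac`, `pinv`, `one`, `res` of the chart of `w`). R7: `ι`. `u ≠ 0`; R8: `i, y` with `Tor`.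
Let `f = aeval g q ≠ 0`, `w f = 0`. `ι (ac' f) = AC f = toLF (part u 0 (L f))` (`LForm.eq`); the exponents of `part u 0 _` have weight `0`, so R8 gives `N, P`. If all exponents of `L f` are `0` or of positive weight then `part u 0 (L f) = single 0 c`, `c` its coefficient at `0`, so `ι (ac' f) = ι (i c)` and
`ac' f = i c` (`ι` is injective). -/
def S_rf : Prop :=
  ∀ (p : ℕ) [Fact p.Prime] (k K κ Γ : Type) [Field k] [CharP k p] [PerfectRing k p] [Field K]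
    [Algebra k K] [Field κ] [Algebra k κ] [AddCommGroup Γ] [LinearOrder Γ] [IsOrderedAddMonoid Γ]
    (n : ℕ) (g : Fin n → K), FracGen k g → ∀ (b0 : Fin (p ^ 3) → K)
    (ρ0 : Fin (p ^ 3) → K → K), IsPB p b0 ρ0 → ∀ φ : K → K, IsPinv p φ → φ 1 = 1 →
    ∀ (V : K → Γ) (x : Fin 2 → K) (ex : K → Fin 2 → ℤ) (ac : K → κ) (φb : κ → κ)
      (N : Set (Fin 2 → ℤ)) (L : K → AddMonoidAlgebra κ (Fin 2 → ℤ)),
    Chart k p φ g V x ex ac φb N L → ∀ (u : Fin 2 → ℤ) (w : K → ℤ), Good N u →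
    OnCh k p φ g L u w → u ≠ 0 →
    ∃ (κ' : Type) (_ : Field κ') (_ : Algebra k κ') (r' : ℕ) (x' : Fin r' → K) (ac' : K → κ')
      (φ' : κ' → κ') (i : κ →+* κ') (y : κ') (Φ : LF κ 2 → LF κ 2) (AC : K → LF κ 2)
      (ι : κ' →+* LF κ 2), IsAC k w x' ac' ∧
      (∀ f, Ge w 0 f → Ge w 0 (φ f) ∧ lc w ac' 0 (φ f) = φ' (lc w ac' 0 f)) ∧
      (letI := i.toAlgebra; Tor p κ φb φ' y) ∧ LForm k p φ g x L Φ u w AC ∧
      (∀ f, f ≠ 0 → w f = 0 → ι (ac' f) = AC f) ∧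
      (∀ c, ι (i c) = toLF (AddMonoidAlgebra.single 0 c)) ∧
      ∀ q : MvPolynomial (Fin n) k, MvPolynomial.aeval g q ≠ 0 → w (MvPolynomial.aeval g q) = 0 →
        (∃ (N : ℕ) (P : κ[X]), ac' (MvPolynomial.aeval g q) * y ^ N = P.eval₂ i y) ∧
        ((∀ m, (L (MvPolynomial.aeval g q)).coeff m ≠ 0 → m = 0 ∨ 0 < wt u m) →
          ∃ c : κ, ac' (MvPolynomial.aeval g q) = i c)

/-- [F2S un] (about 100 lines) An element with constant leading form has value zero for all flags.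

Proof. `ψ b = a`, `a, b ∈ k[g]` nonzero (`FracGen`); `w a = w b =: s`. `AC a = AC ψ * AC b` (`LForm.mul`), `LForm.eq`: `toLF (part u s (L a)) = toLF (single 0 c) * toLF (part u s (L b))`; `toLF` is injective and multiplicative, so `part u s (L a) = single 0 c * part u s (L b)`,
and `c ≠ 0` (`LForm.ne`), so the two parts have the same exponents. CLAIM `W a = W b`. By `OnCh.min` for `W` there is an exponent `m` of `L a` with `W a = toLex (wt u m, wt e m)`; by `OnCh.min` for `w` there is an exponent `m1` of `L a` with `wt u m1 = s ≤ wt u m`, and `W a ≤ toLex (wt u m1, _)` gives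
`wt u m ≤ s`. So `wt u m = s`, `m` is an exponent of `part u s (L a)`, hence of `part u s (L b)` and of `L b`, so `W b ≤ toLex (wt u m, wt e m) = W a`. By symmetry `W a ≤ W b`. So `W ψ = W a - W b = 0`. -/
def S_un : Prop :=
  ∀ (p : ℕ) (k K κ : Type) [Field k] [Field K] [Algebra k K] [Field κ] [Algebra k κ] (n : ℕ)
    (g : Fin n → K), FracGen k g → ∀ (φ : K → K) (x : Fin 2 → K)
    (L : K → AddMonoidAlgebra κ (Fin 2 → ℤ)) (Φ : LF κ 2 → LF κ 2) (u e : Fin 2 → ℤ) (w : K → ℤ)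
    (W : K → ℤ ×ₗ ℤ) (AC : K → LF κ 2), LForm k p φ g x L Φ u w AC → OnCh k p φ g L u w →
    OnCh k p φ g L (fun i => toLex (u i, e i)) W → ∀ (ψ : K) (c : κ), ψ ≠ 0 → w ψ = 0 →
    AC ψ = toLF (AddMonoidAlgebra.single 0 c) → W ψ = 0

/-- [F2S ct] (about 180 lines) Uses S_rh, S_pr, S_nl, and S_R1, S_O2 (section W). Residual eigenvalues are constant (constant term argument).

Proof. `O, ρ` from rh. By `Rst` and O2 `T l ≠ 0`, `w (T l) ≤ 0`, so `w (T l) = 0`, and the same for `l0`. `Ψ = ρ ψ = ac' ψ ≠ 0`; `ψ⁻¹ ∈ O`, `ρ ψ⁻¹ = Ψ⁻¹`; by `hψ` `ρ (T l) = Ψ + Ψ⁻¹` and this is `ac' (T l)`. By `hq` (for `T l ∈ B`) `(Ψ + Ψ⁻¹) y ^ N' = P.eval₂ i y`; with `letI := i.toAlgebra`, `R1` (`Tor.tr`, `Tor.gen`):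
`Ψ = i c * y ^ j`, `c ≠ 0`. CLAIM `j = 0` (then done). Suppose `j ≠ 0`.
(1) There are integers `a ≠ 0`, `b` with `cl l ^ a = cl l0 ^ b`: let `c = cl l`, `d = cl l0 ≠ 0` (additively); if `d.1 ≠ 0` take `a = d.1`, `b = c.1` (`Dpd`: `c.1 d.2 = c.2 d.1`); otherwise `d.2 ≠ 0`, `c.1 = 0`: `a = d.2`, `b = c.2`. Let `s` be the common class (in `ℤ × ℤ`).
(2) `f = t1 t2 ∈ B` with `t1 = T (l ^ a)`, `t2 = T (l0 ^ b)`; `res f = ee s * ee s = single (2 s) 1 + 2 + single (-2 s) 1`, so `ct (res f) = 2` if `s ≠ 0`, `4` if `s = 0`: nonzero because `p ≠ 2`.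
(3) pr: `ρ t1 = Ψ ^ a + Ψ ^ (-a)`, and `ρ t2 = i c'` for some `c'` (`S = i.range`, as `ρ (T l0) = ac' (T l0) = i c0` by `h0`). So `ρ f = i (c ^ a c') y ^ (j a) + i (c ^ (-a) c') y ^ (- j a)`, with `j a ≠ 0`. By nl and additivity of `φ'` (`Tor.pinv`) `φ'^[N] (ρ f) = 0` for all large `N`.
(4) By `hφ'` and induction `Ge w 0 (φ^[N] f)` and `lc w ac' 0 (φ^[N] f) = φ'^[N] (lc w ac' 0 f) = φ'^[N] (ρ f)`. So for large `N` `lc w ac' 0 (φ^[N] f) = 0`, i.e. `Gt w 0 (φ^[N] f)`. But `(φ^[N] f) ^ (p ^ N) = algebraMap (ct (res f)) ≠ 0` (`Fra.tau`) has value `0` (`Triv`): `φ^[N] f ≠ 0`, so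
`0 < w (φ^[N] f)` and `0 < p ^ N w (φ^[N] f) = 0`: a contradiction. -/
def S_ct : Prop :=
  ∀ (p : ℕ) [Fact p.Prime], p ≠ 2 → ∀ (k K κ κ' Λ : Type) [Field k] [CharP k p] [Field K]
    [Algebra k K] [Field κ] [Field κ'] [Algebra k κ'] [Group Λ] (B : Subalgebra k K)
    (res : B →ₐ[k] Lau k) (φ : K → K), Fra p k B res φ → ∀ (T : Λ → K)
    (cl : Λ →* Multiplicative (ℤ × ℤ)), PC T → Rst k B res T cl → ∀ w : K → ℤ, InZ k p φ w →
    ∀ (r' : ℕ) (x' : Fin r' → K) (ac' : K → κ') (φb : κ → κ) (φ' : κ' → κ') (i : κ →+* κ')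
      (y : κ'), IsAC k w x' ac' →
      (∀ f, Ge w 0 f → Ge w 0 (φ f) ∧ lc w ac' 0 (φ f) = φ' (lc w ac' 0 f)) →
      (letI := i.toAlgebra; Tor p κ φb φ' y) →
      (∀ f : B, (f : K) ≠ 0 → w (f : K) = 0 →
        ∃ (N : ℕ) (P : κ[X]), ac' (f : K) * y ^ N = P.eval₂ i y) →
    ∀ (l l0 : Λ) (ψ : K), 0 ≤ w (T l) → ψ ≠ 0 → w ψ = 0 → Gt w 0 (ψ + ψ⁻¹ - T l) →
      cl l0 ≠ 1 → 0 ≤ w (T l0) → (∃ c0 : κ, ac' (T l0) = i c0) → Dpd (cl l) (cl l0) →
      ∃ c : κ, ac' ψ = i c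

/-- [F2S LSz] (about 180 lines) Uses n0, fl, we, tr, tr2, hs, dp, sg, rf, un, ct, and S_Z2, S_O2 (section W), S_A3 (section D). LEMMA S, integer form.

Proof. (1) `u ≠ 0`: otherwise `w f = 0` for all `f ∈ k[g] - 0` (`OnCh.min`), hence for all `f` (`FracGen`), against `hnt`. n0 gives `n0`; `e = n0`; `ν = wt n0 n0 = (n0 0)² + (n0 1)² > 0`. (2) fl for `e` and `- e`: `W`, `W'`. we: `W (T l0) = W' (T l0) = 0` (`T l0 ∈ B = k[g]`, `T l0 ≠ 0`: `hw0` and `Rst`: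
`res t ≠ 0`, or O2). (3) If `a W (x 0) + b W (x 1) = 0`, put `m = ![a, b]`: `wt u m = 0`, so `m = j n0`, and `0 = wt e m = j ν`, so `j = 0`, `a = b = 0`. tr for `W` (and for `W'`), then Z2 with `t = T l0` (class `≠ 0`): for `f ∈ B`, `res f = 0`: `Ge W 0 f → Gt W 0 f`; the same for `W'`.
(4) sg: for one of them, call it `W1` (direction `e1 = ± n0`): `f ∈ B`, `res f = 0`, `Ge W1 0 f` imply `f = 0`. (5) hs, tr2, dp: the classes of the `l` with `0 ≤ w (T l)` are pairwise dependent. (6) rf: residue field; `ac' (T l0) = i c0`.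
(7) A3 with `v = w`, `V = W1`: `Disc w` with `γ = 1`; `0 < w f → 0 < W1 f` (first component); `Disc'` with `δ = toLex (0, ν)`: if `w f = 0`, `f ≠ 0`, then `W1 f = toLex (wt u m, wt e1 m)` with `wt u m = w f = 0`, so `m = j n0` and `W1 f = (± j) • δ`. Eigenvalues: let `0 ≤ w (T l)`, `ψ ≠ 0`, `w ψ = 0`,
`Gt w 0 (ψ + ψ⁻¹ - T l)`: ct gives `ac' ψ = i c`, so `AC ψ = ι (ac' ψ) = toLF (single 0 c)`, and un gives `W1 ψ = 0`. Class zero elements: let `0 ≤ W1 (T l)`, `cl l = 1`: `t = T l ∈ B`, `res t = 2`, `f = t - 2 ∈ B`, `res f = 0`, `Ge W1 0 f` (constants have value `0`), so `f = 0`, `T l = 2`, and `Grp.two`.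
So `OntoF2 Λ`: a contradiction. -/
def S_LSz : Prop :=
  ∀ (p : ℕ) [Fact p.Prime], p ≠ 2 → ∀ (k K κ Γ Λ M : Type) [Field k] [CharP k p]
    [PerfectRing k p] [Field K] [Algebra k K] [Field κ] [Algebra k κ] [AddCommGroup Γ]
    [LinearOrder Γ] [IsOrderedAddMonoid Γ] [Group Λ] [Group M] (n : ℕ) (g : Fin n → K),
    FracGen k g → ∀ (b0 : Fin (p ^ 3) → K) (ρ0 : Fin (p ^ 3) → K → K), IsPB p b0 ρ0 →
    ∀ φ : K → K, IsPinv p φ → φ 1 = 1 → ∀ (B : Subalgebra k K) (res : B →ₐ[k] Lau k),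
    Fra p k B res φ → (∀ f : K, f ∈ B ↔ ∃ q : MvPolynomial (Fin n) k, MvPolynomial.aeval g q = f) →
    ∀ (T : Λ → K) (cl : Λ →* Multiplicative (ℤ × ℤ)) (π : Λ →* M), Grp T cl π →
    Rst k B res T cl → ¬ OntoF2 Λ →
    ∀ (V : K → Γ) (x : Fin 2 → K) (ex : K → Fin 2 → ℤ) (ac : K → κ) (φb : κ → κ)
      (N : Set (Fin 2 → ℤ)) (L : K → AddMonoidAlgebra κ (Fin 2 → ℤ)),
    Chart k p φ g V x ex ac φb N L → ∀ (u : Fin 2 → ℤ) (w : K → ℤ), Good N u →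
    OnCh k p φ g L u w → (∀ f : B, (f : K) ≠ 0 → w (f : K) ≤ 0) → (∃ f, w f ≠ 0) →
    ∀ l0 : Λ, cl l0 ≠ 1 → w (T l0) = 0 →
    (∀ m, (L (T l0)).coeff m ≠ 0 → m = 0 ∨ 0 < wt u m) → False

/-- [F2S LS] (about 100 lines) Uses LSz. LEMMA S in the form `l8` of `LocF` (`F2/PF/DefsB.lean`).

Proof. `Dv w`: `γ > 0`, `w f = n_f • γ` (`f ≠ 0`). `w' f = n_f` for `f ≠ 0`, `w' 0 = 0`; `w f = γ w' f` for all `f`. `w'` is in `InZ` (divide by `γ > 0`). `Chart.cell` for `ℝ` and `u` gives `w1` with `OnCh` and `w1 (x i) = u i`, `Chart.uniq`: `w1 = w`. So `u i = w (x i) = γ w' (x i)`; `u' i = w' (x i)`, `u = γ u'`,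
`wt u m = γ wt u' m`. So `Good N u'`, `OnCh … u' w'`, `w' ≤ 0` on `B - 0`, `w' ≠ 0`, `w' (T l0) = 0`, and the condition on the exponents of `L (T l0)`. LSz. -/
def S_LS : Prop :=
  ∀ (p : ℕ) [Fact p.Prime], p ≠ 2 → ∀ (k K κ Γ Λ M : Type) [Field k] [CharP k p]
    [PerfectRing k p] [Field K] [Algebra k K] [Field κ] [Algebra k κ] [AddCommGroup Γ]
    [LinearOrder Γ] [IsOrderedAddMonoid Γ] [Group Λ] [Group M] (n : ℕ) (g : Fin n → K),
    FracGen k g → ∀ (b0 : Fin (p ^ 3) → K) (ρ0 : Fin (p ^ 3) → K → K), IsPB p b0 ρ0 →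
    ∀ φ : K → K, IsPinv p φ → φ 1 = 1 → ∀ (B : Subalgebra k K) (res : B →ₐ[k] Lau k),
    Fra p k B res φ → (∀ f : K, f ∈ B ↔ f ∈ F2PF.Br k g) →
    ∀ (T : Λ → K) (cl : Λ →* Multiplicative (ℤ × ℤ)) (π : Λ →* M), Grp T cl π →
    Rst k B res T cl → ¬ OntoF2 Λ →
    ∀ (V : K → Γ) (x : Fin 2 → K) (ex : K → Fin 2 → ℤ) (ac : K → κ) (φb : κ → κ)
      (N : Set (Fin 2 → ℤ)) (L : K → AddMonoidAlgebra κ (Fin 2 → ℤ)),
    Chart k p φ g V x ex ac φb N L → ∀ (u : Fin 2 → ℝ) (w : K → ℝ), Good N u →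
    OnCh k p φ g L u w → F2PF.Dv w → F2PF.SG (F2PF.Br k g) w → (∃ f, w f ≠ 0) →
    ∀ l0 : Λ, cl l0 ≠ 1 → w (T l0) = 0 →
    (∀ m, (L (T l0)).coeff m ≠ 0 → m = 0 ∨ 0 < wt u m) → False

end Pool.Agent.F2S
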