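import Pool.Agent.Lib.MP_305fdd_al.F2.S.Main
import Pool.Agent.Lib.MP_305fdd_al.F2.L.Glue
import Pool.Agent.Lib.MP_305fdd_al.F2.Core

/-!
# MP_305fdd_al, F_2 project, section S: the field `l8` of `LocF` for both forms of the core data
-/

set_option autoImplicit false

namespace Pool.Agent.F2S

open Pool.Agent.F2Ch Pool.Agent.F2 Pool.Agent.F2RF Pool.Agent.F2W Pool.Agent.F2D Pool.Agent.F2PF
open Pool.Agent.F2L

section

variable {p : ℕ} [Fact p.Prime] {k : Type} [Field k] [CharP k p] [PerfectRing k p]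
  {Λ : Type} [Group Λ] {cl : Λ →* Multiplicative (ℤ × ℤ)} {K : Type} [Field K] [Algebra k K]
  {B : Subalgebra k K} {res : B →ₐ[k] Lau k} {T : Λ → K} {κ0 : B} {φ : K → K} {R : K → ℤ}
  {n : ℕ} {g : Fin n → K}

/-- a surjective class map has rank two -/
theorem rk2_of_surj {cl : Λ →* Multiplicative (ℤ × ℤ)} (h : Function.Surjective cl) : Rk2 cl := by
  obtain ⟨a, ha⟩ := h (Multiplicative.ofAdd (1, 0))
  obtain ⟨b, hb⟩ := h (Multiplicative.ofAdd (0, 1))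
  refine ⟨a, b, ?_⟩
  rw [ha, hb, Dpd]
  simp

/-- THE FIELD `l8` OF `LocF`, for `F2L.Core` -/
theorem l8 (C : F2L.Core p k cl B res T κ0 φ R g) (hex : ¬ OntoF2 Λ) :
    L8 k p φ g (ES cl T) := by
  intro κ Γ _ _ _ _ _ V x ex ac φb N L hch u w hgood hon hdv hsg hnt z hz hwz hexp
  obtain ⟨l0, hl0, rfl⟩ := hz
  obtain ⟨M, _, π, hπ1, hπ2⟩ := C.pi
  obtain ⟨b, ρ, hb⟩ := C.pb
  have hfg : FracGen k g := by
    intro f
    obtain ⟨a, b, hb0, hab⟩ := C.fra.gen f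
    obtain ⟨qa, hqa⟩ := (C.Bg (a : K)).1 a.2
    obtain ⟨qb, hqb⟩ := (C.Bg (b : K)).1 b.2
    exact ⟨qa, qb, by rw [hqb]; exact hb0, by rw [hqa, hqb]; exact hab⟩
  refine t_LS p C.odd k K κ Γ Λ M n g hfg b ρ hb φ C.fra.pinv C.fra.one B res C.fra C.Bg T cl π
    ⟨C.pc, C.irr, rk2_of_surj C.onto, hπ2, ?_⟩ ?_ hex V x ex ac φb N L hch u w hgood hon hdv hsg
    hnt l0 hl0 hwz hexp
  · intro l _ hl
    refine ⟨(hπ1 l).2 hl, fun h => ?_⟩
    rw [C.pc.comm]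
    exact C.two l hl h
  · intro l
    exact ⟨⟨T l, C.mem l⟩, rfl, C.res_T l⟩

end

section

variable {p : ℕ} [Fact p.Prime] {k K Λ : Type} [Field k] [CharP k p] [IsAlgClosed k]
  [Field K] [Algebra k K] [Group Λ]

/-- THE FIELD `l8` OF `LocF`, for `F2.Core` -/
theorem l8' (C : F2.Core p k K Λ) (hex : ¬ OntoF2 Λ) : L8 k p C.φ C.t C.E := by
  have hperf : PerfectRing k p := PerfectField.toPerfectRing p
  intro κ Γ _ _ _ _ _ V x ex ac φb N L hch u w hgood hon hdv hsg hnt z hz hwz hexp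
  obtain ⟨l0, hl0, rfl⟩ := hz
  have hdep : ∀ a b, F2.Dep a b ↔ Dpd a b := fun a b => dep_iff a b
  have hrk : Rk2 C.cl := by
    obtain ⟨a, b, hab⟩ := C.indep
    exact ⟨a, b, fun h => hab ((hdep _ _).2 h)⟩
  refine t_LS p C.odd k K κ Γ Λ C.M C.n C.t C.fracgen C.b0 C.ρ0 C.pb C.φ C.fra.pinv C.fra.one
    C.B C.res C.fra C.mem_B C.T C.cl C.pi
    ⟨C.pc, C.irr, hrk, fun a b h => (hdep _ _).1 (C.pi_dep a b h), ?_⟩ ?_ hex V x ex ac φb N L hch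
    u w hgood hon hdv hsg hnt l0 hl0 hwz hexp
  · intro l _ hl
    exact ⟨(C.pi_one l).2 hl, fun h => (C.two l hl h).2⟩
  · intro l
    exact ⟨⟨C.T l, C.T_mem l⟩, rfl, C.res_T l⟩

end

end Pool.Agent.F2S
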