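import Pool.Agent.Lib.MP_305fdd_al.F2.ChApi
import Pool.Agent.Lib.MP_305fdd_al.F2.W.Defs
import Pool.Agent.Lib.MP_305fdd_al.F2.D.Defs
import Pool.Agent.Lib.MP_305fdd_al.F2.PF.DefsB

/-!
# MP_305fdd_al, F_2 project, section S (Lemma S: no semi-good points inside a two-dimensional chart
with an elliptic element of class `≠ 0` along both sides): definitions
-/

set_option autoImplicit false

namespace Pool.Agent.F2S

open Pool.Agent.F2Ch Pool.Agent.F2 Pool.Agent.F2W Pool.Agent.F2D

/-- the group theoretic data: `T` are the traces, `cl` the classes, `π` the projection to the image -/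
structure Grp {Λ M K : Type} [Group Λ] [Group M] [Field K] (T : Λ → K)
    (cl : Λ →* Multiplicative (ℤ × ℤ)) (π : Λ →* M) : Prop where
  pc : PC T
  irr : Irr T
  rk : Rk2 cl
  comm : ∀ g h, Commute (π g) (π h) → Dpd (cl g) (cl h)
  two : ∀ l, cl l = 1 → T l = 2 → π l = 1 ∧ ∀ h, T (l * h) = T h

/-- the traces are in `B` and restrict to `e_(cl l)` -/
def Rst (k : Type) {K Λ : Type} [Field k] [Field K] [Algebra k K] [Group Λ] (B : Subalgebra k K)
    (res : B →ₐ[k] Lau k) (T : Λ → K) (cl : Λ →* Multiplicative (ℤ × ℤ)) : Prop :=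
  ∀ l, ∃ t : B, (t : K) = T l ∧ res t = ee k (Multiplicative.toAdd (cl l))

end Pool.Agent.F2S
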