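import Pool.Agent.Lib.MP_305fdd_al.F2.S.Stm

set_option autoImplicit false

namespace Pool.Agent.F2S

open Pool.Agent.F2Ch Pool.Agent.F2 Pool.Agent.F2W Pool.Agent.F2D Pool.Agent.F2RF Polynomial

theorem p_LS (hLSz : S_LSz) : S_LS := by
  intro p hp hp2 k K κ Γ Λ M _ _ _ _ _ _ _ _ _ _ _ _ n g hg b0 ρ0 hb φ hφ hφ1 B res hfra hB T cl π
    hgrp hrst hno V x ex ac φb N L hch u w hgood hon hdv hsg hne l0 hcl hw0 hm
  classical
  obtain ⟨γ, hγ, hdiv⟩ := hdv
  have hz : w 0 = 0 := hon.inz.isv.zero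
  have hex : ∀ f, ∃ n : ℤ, w f = (n : ℝ) * γ := by
    intro f
    by_cases hf : f = 0
    · exact ⟨0, by rw [hf, hz]; simp⟩
    · obtain ⟨n, hn⟩ := hdiv f hf
      exact ⟨n, by rw [hn, zsmul_eq_mul]⟩
  choose v hv using hex
  have hle : ∀ a b : ℤ, (a : ℝ) * γ ≤ (b : ℝ) * γ → a ≤ b := by
    intro a b h
    have := le_of_mul_le_mul_right h hγ
    exact_mod_cast this
  have heq : ∀ a b : ℤ, (a : ℝ) * γ = (b : ℝ) * γ → a = b := by
    intro a b h
    exact le_antisymm (hle a b h.le) (hle b a h.ge)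
  have hlt : ∀ a b : ℤ, (a : ℝ) * γ < (b : ℝ) * γ → a < b := by
    intro a b h
    have := lt_of_mul_lt_mul_right h hγ.le
    exact_mod_cast this
  have hzero : ∀ f, w f = 0 → v f = 0 := by
    intro f hf
    apply heq
    rw [← hv f, hf]
    simp
  have hisv : IsV v := by
    refine ⟨hzero 0 hz, ?_, ?_⟩
    · intro a b ha hb'
      apply heq
      rw [← hv, hon.inz.isv.mul a b ha hb', hv a, hv b]
      push_cast
      ring
    · intro a b ha hb' hab
      have h1 := hon.inz.isv.add a b ha hb' hab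
      rcases min_le_iff.1 h1 with h2 | h2
      · apply min_le_iff.2
        left
        apply hle
        rw [← hv, ← hv]
        exact h2
      · apply min_le_iff.2
        right
        apply hle
        rw [← hv, ← hv]
        exact h2
  have hinz : InZ k p φ v := by
    refine ⟨hisv, ?_, ?_⟩
    · intro c
      exact hzero _ (hon.inz.triv c)
    · intro f hf
      have h1 := hon.inz.compat f hf
      apply hle
      rw [← hv]
      refine h1.trans (le_of_eq ?_)
      rw [hv (φ f), nsmul_eq_mul, nsmul_eq_mul]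
      push_cast
      ring
  obtain ⟨w1, hw1, hw1x⟩ := hch.cell ℝ u hgood
  have hww : w1 = w := hch.uniq ℝ u w1 w hw1 hon
  have hu : ∀ i, u i = (v (x i) : ℝ) * γ := by
    intro i
    rw [← hw1x i, hww, hv]
  have hwt : ∀ m : Fin 2 → ℤ, wt u m = ((wt (fun i => v (x i)) m : ℤ) : ℝ) * γ := by
    intro m
    simp only [wt, Fin.sum_univ_two, hu, zsmul_eq_mul, smul_eq_mul, Int.cast_add, Int.cast_mul]
    ring
  have hgood' : Good N (fun i => v (x i)) := by
    intro m hmN
    apply hlt
    rw [← hwt]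
    have := hgood m hmN
    simpa using this
  have hon' : OnCh k p φ g L (fun i => v (x i)) v := by
    refine ⟨hinz, ?_⟩
    intro q hq
    obtain ⟨h1, m, h2, h3⟩ := hon.min q hq
    refine ⟨?_, m, h2, ?_⟩
    · intro m' hm'
      apply hle
      rw [← hwt, ← hv]
      exact h1 m' hm'
    · apply heq
      rw [← hwt, ← hv]
      exact h3
  refine hLSz p hp2 k K κ Γ Λ M n g hg b0 ρ0 hb φ hφ hφ1 B res hfra (fun f => hB f) T cl π hgrp hrst
    hno V x ex ac φb N L hch (fun i => v (x i)) v hgood' hon' ?_ ?_ l0 hcl (hzero _ hw0) ?_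
  · intro f hf
    have h1 := hsg (f : K) ((hB (f : K)).1 f.2) hf
    apply hle
    rw [← hv]
    simpa using h1
  · obtain ⟨f, hf⟩ := hne
    refine ⟨f, fun h => hf ?_⟩
    rw [hv, h]
    simp
  · intro m hmc
    rcases hm m hmc with h | h
    · exact Or.inl h
    · right
      apply hlt
      rw [← hwt]
      simpa using h

end Pool.Agent.F2S
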