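import Pool.Agent.Lib.MP_305fdd_al.F2.S.Stm

/-!
# MP_305fdd_al, F_2 project, section S: [F2S LSz] Lemma S, integer form
-/

set_option autoImplicit false

namespace Pool.Agent.F2S

open Pool.Agent.F2Ch Pool.Agent.F2 Pool.Agent.F2W Pool.Agent.F2D Pool.Agent.F2RF Polynomial

private theorem LSz_one {K Γ : Type} [Field K] [AddCommGroup Γ] [LinearOrder Γ]
    [IsOrderedAddMonoid Γ] {v : K → Γ} (hv : IsV v) : v 1 = 0 := by
  have h := hv.mul 1 1 one_ne_zero one_ne_zero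
  rw [mul_one] at h
  exact left_eq_add.mp h

private theorem LSz_ge_add {K Γ : Type} [Field K] [AddCommGroup Γ] [LinearOrder Γ]
    [IsOrderedAddMonoid Γ] {v : K → Γ} (hv : IsV v) (a b : K) (ha : Ge v 0 a) (hb : Ge v 0 b) :
    Ge v 0 (a + b) := by
  rcases ha with rfl | ha
  · simpa using hb
  rcases hb with rfl | hb
  · rw [add_zero]; exact Or.inr ha
  by_cases ha0 : a = 0
  · rw [ha0, zero_add]; exact Or.inr hb
  by_cases hb0 : b = 0
  · rw [hb0, add_zero]; exact Or.inr ha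
  by_cases hab : a + b = 0
  · exact Or.inl hab
  · exact Or.inr ((le_min ha hb).trans (hv.add a b ha0 hb0 hab))

private theorem LSz_smul_lex (a b c : ℤ) : a • (toLex (b, c) : ℤ ×ₗ ℤ) = toLex (a * b, a * c) := by
  change toLex ((a • b, a • c) : ℤ × ℤ) = _
  simp

private theorem LSz_wt (u m : Fin 2 → ℤ) : wt u m = m 0 * u 0 + m 1 * u 1 := by
  simp [wt, Fin.sum_univ_two]

private theorem LSz_wt_smul (u m : Fin 2 → ℤ) (j : ℤ) : wt u (j • m) = j * wt u m := by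
  rw [LSz_wt, LSz_wt]
  simp only [Pi.smul_apply, smul_eq_mul]
  ring

private theorem LSz_wt_neg (u m : Fin 2 → ℤ) : wt (-u) m = - wt u m := by
  rw [LSz_wt, LSz_wt]
  simp only [Pi.neg_apply]
  ring

theorem p_LSz (hn0 : S_n0) (hfl : S_fl) (hwe : S_we) (htr : S_tr) (htr2 : S_tr2) (hhs : S_hs)
    (hdp : S_dp) (hsg : S_sg) (hrf : S_rf) (hun : S_un) (hct : S_ct) (hZ2 : S_Z2) (hO2 : S_O2)
    (hA3 : Pool.Agent.F2D.S_A3) : S_LSz := by
  intro p _ hp2 k K κ Γ Λ M _ _ _ _ _ _ _ _ _ _ _ _ n g hg b0 ρ0 hb φ hφ hφ1 B res hF hB T cl π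
    hG hR hOn V x ex ac φb N L hch u w hgood hon hneg hnt l0 hl0 hw0 hexp
  have hv : IsV w := hon.inz.isv
  have htv : Triv k w := hon.inz.triv
  have hcv : Compat p φ w := hon.inz.compat
  -- (1)
  have hu : u ≠ 0 := by
    rintro rfl
    obtain ⟨f, hf⟩ := hnt
    have hz : ∀ q : MvPolynomial (Fin n) k, MvPolynomial.aeval g q ≠ 0 →
        w (MvPolynomial.aeval g q) = 0 := fun q hq => by
      obtain ⟨m, -, hm⟩ := (hon.min q hq).2
      rw [hm]
      simp [wt]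
    have hf0 : f ≠ 0 := by
      rintro rfl
      exact hf hv.zero
    obtain ⟨a, b, hb', hab⟩ := hg f
    have ha : MvPolynomial.aeval g a ≠ 0 := by
      rw [← hab]
      exact mul_ne_zero hf0 hb'
    have h1 := hv.mul f _ hf0 hb'
    rw [hab, hz a ha, hz b hb', add_zero] at h1
    exact hf h1.symm
  -- (2)
  obtain ⟨n0, hn0', hker⟩ := hn0 u hu
  have hν : 0 < wt n0 n0 := by
    rw [LSz_wt]
    have h1 : n0 0 ≠ 0 ∨ n0 1 ≠ 0 := by
      by_contra hcon
      push Not at hcon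
      apply hn0'
      funext i
      fin_cases i
      · exact hcon.1
      · exact hcon.2
    rcases h1 with h | h
    · have := mul_self_pos.2 h
      have := mul_self_nonneg (n0 1)
      omega
    · have := mul_self_pos.2 h
      have := mul_self_nonneg (n0 0)
      omega
  obtain ⟨W, hW, hWx, hW1, hWm⟩ :=
    hfl p k K κ Γ n g hg φ V x ex ac φb N L hch u w hgood hon n0
  obtain ⟨W', hW', hWx', hW1', hWm'⟩ :=
    hfl p k K κ Γ n g hg φ V x ex ac φb N L hch u w hgood hon (-n0)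
  -- the element `T l0`
  obtain ⟨t0, ht0, hrt0⟩ := hR l0
  have hc0 : Multiplicative.toAdd (cl l0) ≠ 0 := fun h => hl0 (by
    apply Multiplicative.toAdd.injective
    rw [h, toAdd_one])
  have ht0ne : (t0 : K) ≠ 0 := ((hO2 p hp2 k K ℤ B res φ hF w hv htv hcv).2 t0 _ hrt0).1
  obtain ⟨q0, hq0⟩ := (hB (T l0)).1 (by rw [← ht0]; exact t0.2)
  have hT0 : T l0 ≠ 0 := by rw [← ht0]; exact ht0ne
  have hWl0 : ∀ (e : Fin 2 → ℤ) (W1 : K → ℤ ×ₗ ℤ),
      OnCh k p φ g L (fun i => toLex (u i, e i)) W1 → W1 (T l0) = 0 := by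
    intro e W1 hW1
    rw [← hq0]
    refine hwe p k K κ n g φ L u e w W1 hon hW1 q0 ?_ ?_ ?_
    · rw [hq0]; exact hT0
    · rw [hq0]; exact hw0
    · rw [hq0]; exact hexp
  -- (3)
  have hQ : ∀ (e : Fin 2 → ℤ) (W1 : K → ℤ ×ₗ ℤ), wt e n0 ≠ 0 →
      OnCh k p φ g L (fun i => toLex (u i, e i)) W1 → (∀ i, W1 (x i) = toLex (u i, e i)) →
      ∀ f : B, res f = 0 → Ge W1 0 (f : K) → Gt W1 0 (f : K) := by
    intro e W1 he hW1 hWx1
    have hind : ∀ a b : ℤ, a • W1 (x 0) + b • W1 (x 1) = 0 → a = 0 ∧ b = 0 := by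
      intro a b hab
      rw [hWx1, hWx1, LSz_smul_lex, LSz_smul_lex, ← toLex_add, Prod.mk_add_mk] at hab
      have h0 : ((a * u 0 + b * u 1, a * e 0 + b * e 1) : ℤ × ℤ) = (0, 0) := hab
      rw [Prod.mk.injEq] at h0
      have h1 : wt u ![a, b] = 0 := by
        rw [LSz_wt]
        simpa using h0.1
      obtain ⟨j, hj⟩ := (hker _).1 h1
      have h2 : wt e ![a, b] = 0 := by
        rw [LSz_wt]
        simpa using h0.2
      rw [hj, LSz_wt_smul] at h2
      rcases mul_eq_zero.1 h2 with h3 | h3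
      · rw [h3, zero_smul] at hj
        constructor
        · have := congrFun hj 0
          simpa using this
        · have := congrFun hj 1
          simpa using this
      · exact absurd h3 he
    have htr' := htr p k K n g hg b0 ρ0 hb φ hφ hφ1 W1 hW1.inz (x 0) (x 1) (hch.vb.ne 0)
      (hch.vb.ne 1) hind
    refine hZ2 p hp2 k K (ℤ ×ₗ ℤ) B res φ hF W1 hW1.inz.isv hW1.inz.triv hW1.inz.compat t0 _ hc0
      hrt0 ?_ htr'
    rw [ht0]
    exact Or.inr (hWl0 e W1 hW1).ge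
  have hQ1 := hQ n0 W hν.ne' hW hWx
  have hQ2 := hQ (-n0) W' (by rw [LSz_wt_neg]; exact neg_ne_zero.2 hν.ne') hW' hWx'
  -- (5)
  obtain ⟨h0, hh0⟩ := hhs k K Λ M B res T cl π hG hR hOn w hv htv hneg
  have htr2' := htr2 p k K n g hg b0 ρ0 hb φ hφ hφ1 w hon.inz hnt
  have hdep := hdp p hp2 k K Λ B res φ hF T cl hR w hv htv hcv htr2' ⟨h0, hh0⟩
  -- (6)
  obtain ⟨κ', _, _, r', x', ac', φ', i, y, Φ, AC, ι, hac, hφ', hTor, hLF, hι, hιi, hres⟩ :=
    hrf p k K κ Γ n g hg b0 ρ0 hb φ hφ hφ1 V x ex ac φb N L hch u w hgood hon hu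
  have hac0 : ∃ c0 : κ, ac' (T l0) = i c0 := by
    have h1 := (hres q0 (by rw [hq0]; exact hT0) (by rw [hq0]; exact hw0)).2
      (by rw [hq0]; exact hexp)
    rwa [hq0] at h1
  have hBres : ∀ f : B, (f : K) ≠ 0 → w (f : K) = 0 →
      ∃ (N : ℕ) (P : κ[X]), ac' (f : K) * y ^ N = P.eval₂ i y := by
    intro f hf0 hwf
    obtain ⟨q, hq⟩ := (hB (f : K)).1 f.2
    have h1 := (hres q (by rw [hq]; exact hf0) (by rw [hq]; exact hwf)).1
    rwa [hq] at h1
  -- (7)
  have final : ∀ (e1 : Fin 2 → ℤ) (W1 : K → ℤ ×ₗ ℤ), (e1 = n0 ∨ e1 = -n0) →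
      OnCh k p φ g L (fun i => toLex (u i, e1 i)) W1 → (∀ f, (ofLex (W1 f)).1 = w f) →
      (∀ f, f ≠ 0 → ∃ m : Fin 2 → ℤ, W1 f = toLex (wt u m, wt e1 m)) →
      (∀ f : B, res f = 0 → Ge W1 0 (f : K) → (f : K) = 0) → False := by
    intro e1 W1 he1 hW1 hfst hm1 hzero
    apply hOn
    refine hA3 Λ K ℤ (ℤ ×ₗ ℤ) M T w W1 cl π hG.pc hG.irr hv hW1.inz.isv ?_ hG.rk ?_ ?_ hG.comm
      hdep ?_ ?_
    · -- Disc
      exact ⟨1, one_pos, fun f _ => ⟨w f, by simp⟩⟩
    · -- finer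
      intro f _ hf
      rw [← hfst f] at hf
      rw [Prod.Lex.lt_iff]
      exact Or.inl hf
    · -- Disc'
      refine ⟨toLex (0, wt n0 n0), ?_, ?_⟩
      · rw [Prod.Lex.lt_iff]
        exact Or.inr ⟨rfl, hν⟩
      · intro f hf0 hwf
        obtain ⟨m, hm⟩ := hm1 f hf0
        have h1 : wt u m = 0 := by
          rw [← hwf, ← hfst f, hm]
          rfl
        obtain ⟨j, hj⟩ := (hker m).1 h1
        rcases he1 with rfl | rfl
        · refine ⟨j, ?_⟩
          rw [hm, h1, LSz_smul_lex, hj, LSz_wt_smul, mul_zero]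
        · refine ⟨-j, ?_⟩
          rw [hm, h1, LSz_smul_lex, hj, LSz_wt_smul, LSz_wt_neg, mul_zero]
          congr 2
          ring
    · -- eigenvalues
      intro l ψ hl hψ0 hwψ hψ
      obtain ⟨c, hc⟩ := hct p hp2 k K κ κ' Λ B res φ hF T cl hG.pc hR w hon.inz r' x' ac' φb φ' i y
        hac hφ' hTor hBres l l0 ψ hl hψ0 hwψ hψ hl0 hw0.ge hac0 (hdep l l0 hl hw0.ge)
      refine hun p k K κ n g hg φ x L Φ u e1 w W1 AC hLF hon hW1 ψ c hψ0 hwψ ?_
      rw [← hι ψ hψ0 hwψ, hc, hιi]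
    · -- class zero
      intro l hl _ hcl
      obtain ⟨t, ht, hrt⟩ := hR l
      have hrt2 : res (t - 2) = 0 := by
        rw [map_sub, hrt, hcl, toAdd_one, map_ofNat, ee, neg_zero]
        rw [sub_eq_zero, ← AddMonoidAlgebra.one_def]
        norm_num
      have e0 : ((t - 2 : B) : K) = T l - 2 := by
        rw [← ht]
        rfl
      have h2 : Ge W1 0 ((t - 2 : B) : K) := by
        have e : ((t - 2 : B) : K) = T l + algebraMap k K (-2) := by
          rw [map_neg, map_ofNat, e0]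
          ring
        rw [e]
        exact LSz_ge_add hW1.inz.isv _ _ (Or.inr hl) (Or.inr (hW1.inz.triv _).ge)
      have h3 := hzero (t - 2) hrt2 h2
      have h4 : T l = 2 := by
        rw [e0] at h3
        exact sub_eq_zero.1 h3
      exact hG.two l hcl h4
  have hBq : ∀ f : B, ∃ q : MvPolynomial (Fin n) k, MvPolynomial.aeval g q = (f : K) :=
    fun f => (hB (f : K)).1 f.2
  rcases hsg p k K κ n g φ L B res hBq u n0 w W W' hW hW' hW1 hW1' hneg hQ1 hQ2 with h | h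
  · exact final n0 W (Or.inl rfl) hW hW1 hWm h
  · exact final (-n0) W' (Or.inr rfl) hW' hW1' hWm' h

end Pool.Agent.F2S
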