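import Pool.Agent.Lib.MP_305fdd_al.F2.S.Stm

/-!
[F2S ct] Residual eigenvalues are constant (MP_305fdd_al, F_2, section S).
-/

set_option autoImplicit false

namespace Pool.Agent.F2S

open Pool.Agent.F2Ch Pool.Agent.F2 Pool.Agent.F2W Pool.Agent.F2D Pool.Agent.F2RF Polynomial

private theorem ct_ne {k : Type} [Field k] (h2 : (2 : k) ≠ 0) (s : ℤ × ℤ) :
    ct (ee k s * ee k s) ≠ 0 := by
  have hs : (s + s = 0) ↔ s = 0 := by
    constructor
    · intro h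
      have h1 := congrArg Prod.fst h
      have h3 := congrArg Prod.snd h
      simp only [Prod.fst_add, Prod.snd_add, Prod.fst_zero, Prod.snd_zero] at h1 h3
      ext
      · simp only [Prod.fst_zero]; omega
      · simp only [Prod.snd_zero]; omega
    · rintro rfl
      simp
  have hs' : (-s + -s = 0) ↔ s = 0 := by
    rw [← neg_add, neg_eq_zero, hs]
  have e1 : ee k s * ee k s = AddMonoidAlgebra.single (s + s) 1 + AddMonoidAlgebra.single 0 1 +
      (AddMonoidAlgebra.single 0 1 + AddMonoidAlgebra.single (-s + -s) 1) := by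
    unfold ee
    rw [add_mul, mul_add, mul_add, AddMonoidAlgebra.single_mul_single,
      AddMonoidAlgebra.single_mul_single, AddMonoidAlgebra.single_mul_single,
      AddMonoidAlgebra.single_mul_single]
    simp only [mul_one, add_neg_cancel, neg_add_cancel]
  unfold ct
  rw [e1]
  simp only [AddMonoidAlgebra.coeff_add, AddMonoidAlgebra.coeff_single, Finsupp.add_apply,
    Finsupp.single_apply, hs, hs', if_true]
  by_cases h0 : s = 0
  · simp only [h0, if_true]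
    have : (1 : k) + 1 + (1 + 1) = 2 * 2 := by norm_num
    rw [this]
    exact mul_ne_zero h2 h2
  · simp only [h0, if_false]
    have : (0 : k) + 1 + (1 + 0) = 2 := by norm_num
    rw [this]
    exact h2

private theorem ct_iter {κ : Type} [Field κ] {p : ℕ} {φ : κ → κ} (hφ : IsPinv p φ) (N : ℕ)
    (x y : κ) : φ^[N] (x + y) = φ^[N] x + φ^[N] y := by
  induction N generalizing x y with
  | zero => rfl
  | succ N ih => rw [Function.iterate_succ_apply, Function.iterate_succ_apply,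
      Function.iterate_succ_apply, hφ.add, ih]

theorem p_ct (hrh : S_rh) (hpr : S_pr) (hnl : S_nl) (hR1 : F2W.S_R1) (hO2 : S_O2) : S_ct := by
  intro p _ hp2 k K κ κ' Λ _ _ _ _ _ _ _ _ B res φ hF T cl hPC hRst w hw r' x' ac' φb φ' i y
    hac hφ' hTor hq l l0 ψ hl hψ hwψ hGt hcl0 hl0 hc0 hDpd
  obtain ⟨c0, hc0⟩ := hc0
  have hk2 : (2 : k) ≠ 0 := by
    intro h
    have h1 : ((2 : ℕ) : k) = 0 := by exact_mod_cast h
    rw [CharP.cast_eq_zero_iff k p] at h1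
    exact hp2 ((Nat.prime_dvd_prime_iff_eq Fact.out Nat.prime_two).mp h1)
  obtain ⟨O, ρ, hO, hρ⟩ := hrh k K ℤ κ' w hw.isv r' x' ac' hac
  have hTr := (hO2 p hp2 k K ℤ B res φ hF w hw.isv hw.triv hw.compat).2
  have hTl : ∀ l : Λ, 0 ≤ w (T l) → T l ≠ 0 ∧ w (T l) = 0 := by
    intro l hl
    obtain ⟨t, ht, hres⟩ := hRst l
    obtain ⟨h1, h2⟩ := hTr t _ hres
    rw [ht] at h1 h2
    exact ⟨h1, le_antisymm h2 hl⟩
  obtain ⟨hTl0, hwTl⟩ := hTl l hl
  obtain ⟨hTl00, hwTl0⟩ := hTl l0 hl0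
  have hlO : T l ∈ O := (hO _).mpr (Or.inr hl)
  have hl0O : T l0 ∈ O := (hO _).mpr (Or.inr hl0)
  have hρac : ∀ (f : K) (hf : f ∈ O), f ≠ 0 → w f = 0 → ρ ⟨f, hf⟩ = ac' f := by
    intro f hf h1 h2
    rw [hρ]
    exact if_pos ⟨h1, h2⟩
  have hρ0 : ∀ (f : K) (hf : f ∈ O), Gt w 0 f → ρ ⟨f, hf⟩ = 0 := by
    intro f hf h1
    rw [hρ]
    refine if_neg ?_
    rintro ⟨h2, h3⟩
    rcases h1 with h1 | h1
    · exact h2 h1
    · exact h1.ne' h3
  have hwinv : w ψ⁻¹ = 0 := by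
    have h1 : w 1 = 0 := by
      have := hw.triv 1
      rwa [map_one] at this
    have h2 := hw.isv.mul ψ ψ⁻¹ hψ (inv_ne_zero hψ)
    rw [mul_inv_cancel₀ hψ, h1, hwψ, zero_add] at h2
    exact h2.symm
  have hψO : ψ ∈ O := (hO _).mpr (Or.inr hwψ.ge)
  have hψiO : ψ⁻¹ ∈ O := (hO _).mpr (Or.inr hwinv.ge)
  have hΨ : ac' ψ ≠ 0 := hac.ne ψ hψ
  have hinv : ac' ψ⁻¹ = (ac' ψ)⁻¹ := by
    have h1 := hac.mul ψ ψ⁻¹
    have h2 : ac' 1 = 1 := by
      have := hac.alg 1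
      rwa [map_one, map_one] at this
    rw [mul_inv_cancel₀ hψ, h2] at h1
    exact (eq_inv_of_mul_eq_one_right h1.symm)
  have hρl : ρ ⟨T l, hlO⟩ = ac' ψ + (ac' ψ)⁻¹ := by
    have hd : ψ + ψ⁻¹ - T l ∈ O := O.sub_mem (O.add_mem hψO hψiO) hlO
    have h1 := hρ0 _ hd hGt
    have h2 : (⟨ψ + ψ⁻¹ - T l, hd⟩ : O) = ⟨ψ, hψO⟩ + ⟨ψ⁻¹, hψiO⟩ - ⟨T l, hlO⟩ := rfl
    rw [h2, map_sub, map_add, hρac ψ hψO hψ hwψ, hρac ψ⁻¹ hψiO (inv_ne_zero hψ) hwinv, hinv,
      sub_eq_zero] at h1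
    exact h1.symm
  have hacl : ac' (T l) = ac' ψ + (ac' ψ)⁻¹ := by
    rw [← hρl, hρac _ hlO hTl0 hwTl]
  let _ := i.toAlgebra
  have hTor' : Tor p κ φb φ' y := hTor
  have halg : ∀ c : κ, algebraMap κ κ' c = i c := fun _ => rfl
  obtain ⟨c, j, hc, hΨj⟩ : ∃ (c : κ) (n : ℤ), c ≠ 0 ∧ ac' ψ = algebraMap κ κ' c * y ^ n := by
    obtain ⟨t, ht, hres⟩ := hRst l
    obtain ⟨N, P, hP⟩ := hq t (by rw [ht]; exact hTl0) (by rw [ht]; exact hwTl)
    rw [ht, hacl] at hP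
    exact hR1 κ κ' y hTor'.tr hTor'.gen (ac' ψ) N P hΨ (by rw [hP, aeval_def]; rfl)
  by_cases hj : j = 0
  · refine ⟨c, ?_⟩
    rw [hΨj, hj, zpow_zero, mul_one]
    rfl
  exfalso
  have hy : y ≠ 0 := by
    rintro rfl
    exact hTor'.tr (isAlgebraic_zero)
  -- the common class
  obtain ⟨a, b, ha, hab⟩ : ∃ a b : ℤ, a ≠ 0 ∧ cl l ^ a = cl l0 ^ b := by
    have hD : (cl l).toAdd.1 * (cl l0).toAdd.2 = (cl l).toAdd.2 * (cl l0).toAdd.1 := hDpd
    have hd0 : ¬ ((cl l0).toAdd.1 = 0 ∧ (cl l0).toAdd.2 = 0) := by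
      rintro ⟨h1, h2⟩
      apply hcl0
      apply Multiplicative.toAdd.injective
      exact Prod.ext h1 h2
    by_cases h1 : (cl l0).toAdd.1 = 0
    · have h2 : (cl l0).toAdd.2 ≠ 0 := fun h => hd0 ⟨h1, h⟩
      have h3 : (cl l).toAdd.1 = 0 := by
        rw [h1, mul_zero] at hD
        exact (mul_eq_zero.mp hD).resolve_right h2
      refine ⟨(cl l0).toAdd.2, (cl l).toAdd.2, h2, ?_⟩
      apply Multiplicative.toAdd.injective
      rw [toAdd_zpow, toAdd_zpow]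
      apply Prod.ext
      · simp only [Prod.smul_fst, smul_eq_mul, h1, h3, mul_zero]
      · simp only [Prod.smul_snd, smul_eq_mul]
        ring
    · refine ⟨(cl l0).toAdd.1, (cl l).toAdd.1, h1, ?_⟩
      apply Multiplicative.toAdd.injective
      rw [toAdd_zpow, toAdd_zpow]
      apply Prod.ext
      · simp only [Prod.smul_fst, smul_eq_mul]
        ring
      · simp only [Prod.smul_snd, smul_eq_mul]
        linarith
  obtain ⟨t1, ht1, hres1⟩ := hRst (l ^ a)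
  obtain ⟨t2, ht2, hres2⟩ := hRst (l0 ^ b)
  have hres2' : res t2 = ee k (Multiplicative.toAdd (cl (l ^ a))) := by
    have h1 : cl (l ^ a) = cl (l0 ^ b) := by
      rw [map_zpow cl, map_zpow cl, hab]
    rw [hres2, h1]
  have hctf : ct (res (t1 * t2)) ≠ 0 := by
    rw [map_mul, hres1, hres2']
    exact ct_ne hk2 _
  -- residues
  obtain ⟨h1O, h11, -⟩ := hpr Λ K κ' T hPC O ρ l hlO a
  obtain ⟨h2O, -, h22⟩ := hpr Λ K κ' T hPC O ρ l0 hl0O b
  have hρ1 := h11 (ac' ψ) hΨ hρl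
  have hρ2 := h22 i.range (by
    rw [hρac _ hl0O hTl00 hwTl0, hc0]
    exact ⟨c0, rfl⟩)
  obtain ⟨c', hc'⟩ := hρ2
  have hfO : ((t1 * t2 : B) : K) ∈ O := by
    rw [MulMemClass.coe_mul, ht1, ht2]
    exact O.mul_mem h1O h2O
  have hρf : ρ ⟨((t1 * t2 : B) : K), hfO⟩ = algebraMap κ κ' (c ^ a * c') * y ^ (j * a) +
      algebraMap κ κ' (c ^ (-a) * c') * y ^ (j * -a) := by
    have h3 : (⟨((t1 * t2 : B) : K), hfO⟩ : O) = ⟨T (l ^ a), h1O⟩ * ⟨T (l0 ^ b), h2O⟩ := by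
      apply Subtype.ext
      show ((t1 * t2 : B) : K) = T (l ^ a) * T (l0 ^ b)
      rw [MulMemClass.coe_mul, ht1, ht2]
    rw [h3, map_mul, hρ1, ← hc', hΨj, mul_zpow, mul_zpow, ← map_zpow₀, ← map_zpow₀, ← zpow_mul,
      ← zpow_mul, map_mul, map_mul, halg c']
    ring
  obtain ⟨N1, hN1⟩ := hnl p κ κ' φb φ' y hTor' (c ^ a * c') (j * a) (mul_ne_zero hj ha)
  obtain ⟨N2, hN2⟩ := hnl p κ κ' φb φ' y hTor' (c ^ (-a) * c') (j * -a)
    (mul_ne_zero hj (neg_ne_zero.mpr ha))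
  obtain ⟨N3, hN3⟩ := hF.tau (t1 * t2)
  let N := max N1 (max N2 N3)
  have hit : ∀ (M : ℕ) (f : K), Ge w 0 f → Ge w 0 (φ^[M] f) ∧
      lc w ac' 0 (φ^[M] f) = φ'^[M] (lc w ac' 0 f) := by
    intro M
    induction M with
    | zero => exact fun f hf => ⟨hf, rfl⟩
    | succ M ih =>
      intro f hf
      obtain ⟨g1, g2⟩ := hφ' f hf
      obtain ⟨g3, g4⟩ := ih (φ f) g1
      rw [Function.iterate_succ_apply, Function.iterate_succ_apply, ← g2]
      exact ⟨g3, g4⟩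
  obtain ⟨hge, hlc⟩ := hit N ((t1 * t2 : B) : K) ((hO _).mp hfO)
  rw [← hρ ⟨((t1 * t2 : B) : K), hfO⟩, hρf, ct_iter hTor'.pinv, hN1 N (le_max_left _ _),
    hN2 N (le_trans (le_max_left _ _) (le_max_right _ _)), add_zero] at hlc
  have htau := hN3 N (le_trans (le_max_right _ _) (le_max_right _ _))
  have hpow : 0 < p ^ N := pow_pos (Fact.out : p.Prime).pos N
  have hne : φ^[N] ((t1 * t2 : B) : K) ≠ 0 := by
    intro h
    rw [h, zero_pow hpow.ne'] at htau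
    apply hctf
    exact (map_eq_zero (algebraMap k K)).mp htau.symm
  have hw0 : w (φ^[N] ((t1 * t2 : B) : K)) ≠ 0 := by
    intro h
    unfold lc at hlc
    rw [if_pos ⟨hne, h⟩] at hlc
    exact hac.ne _ hne hlc
  have hwpos : 0 < w (φ^[N] ((t1 * t2 : B) : K)) := by
    rcases hge with h | h
    · exact absurd h hne
    · exact lt_of_le_of_ne h (Ne.symm hw0)
  have hwpow : ∀ (m : ℕ) (f : K), f ≠ 0 → w (f ^ m) = m * w f := by
    intro m f hf
    induction m with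
    | zero =>
      have := hw.triv 1
      rw [map_one] at this
      simp [this]
    | succ m ih =>
      rw [pow_succ, hw.isv.mul _ _ (pow_ne_zero m hf) hf, ih]
      push_cast
      ring
  have h4 := hwpow (p ^ N) _ hne
  rw [htau, hw.triv] at h4
  have h5 : (0 : ℤ) < ((p ^ N : ℕ) : ℤ) := by exact_mod_cast hpow
  have h6 := mul_pos h5 hwpos
  rw [← h4] at h6
  exact lt_irrefl _ h6

end Pool.Agent.F2S
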