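import Pool.Agent.Lib.MP_305fdd_al.F2.S.Stm

/-!
# MP_305fdd_al, F_2 project, section S: the piece [F2S dp]
-/

set_option autoImplicit false

namespace Pool.Agent.F2S

open Pool.Agent.F2Ch Pool.Agent.F2 Pool.Agent.F2W Pool.Agent.F2D Pool.Agent.F2RF Polynomial

theorem p_dp (hZ6 : S_Z6) : S_dp := by
  intro p _ hp2 k K Λ _ _ _ _ _ B res φ hF T cl hR w hv htr hc h3 hh l l' hl hl'
  by_contra hD
  obtain ⟨h, hres, hne, hw⟩ := hh
  obtain ⟨t, ht, htr1⟩ := hR l
  obtain ⟨t', ht', htr2⟩ := hR l'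
  have hind : ∀ m n : ℤ, m • (Multiplicative.toAdd (cl l)) + n • (Multiplicative.toAdd (cl l')) = 0 →
      m = 0 ∧ n = 0 := by
    intro m n hmn
    have e1 : m * (cl l).toAdd.1 + n * (cl l').toAdd.1 = 0 := by
      have := congrArg Prod.fst hmn
      simpa using this
    have e2 : m * (cl l).toAdd.2 + n * (cl l').toAdd.2 = 0 := by
      have := congrArg Prod.snd hmn
      simpa using this
    have hD' : (cl l).toAdd.1 * (cl l').toAdd.2 - (cl l).toAdd.2 * (cl l').toAdd.1 ≠ 0 :=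
      fun h => hD (sub_eq_zero.1 h)
    constructor
    · have : m * ((cl l).toAdd.1 * (cl l').toAdd.2 - (cl l).toAdd.2 * (cl l').toAdd.1) = 0 := by
        linear_combination (cl l').toAdd.2 * e1 - (cl l').toAdd.1 * e2
      exact (mul_eq_zero.1 this).resolve_right hD'
    · have : n * ((cl l).toAdd.1 * (cl l').toAdd.2 - (cl l).toAdd.2 * (cl l').toAdd.1) = 0 := by
        linear_combination (cl l).toAdd.1 * e2 - (cl l).toAdd.2 * e1
      exact (mul_eq_zero.1 this).resolve_right hD'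
  have hgt : Gt w 0 (h : K) := hZ6 p hp2 k K ℤ B res φ hF w hv htr hc t t' _ _ hind htr1 htr2
    (Or.inr (by rw [ht]; exact hl)) (Or.inr (by rw [ht']; exact hl')) h3 h hres
    (Or.inr (by rw [hw]))
  rcases hgt with h0 | h0
  · exact hne h0
  · rw [hw] at h0
    exact lt_irrefl _ h0

end Pool.Agent.F2S
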