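import Pool.Agent.Lib.MP_305fdd_al.F2.S.Stm

/-!
# MP_305fdd_al, F_2 project, section S: [F2S hs] an element of the ideal of value zero
-/

set_option autoImplicit false

namespace Pool.Agent.F2S

open Pool.Agent.F2Ch Pool.Agent.F2 Pool.Agent.F2W Pool.Agent.F2D Pool.Agent.F2RF Polynomial

private theorem hs_ee (k : Type) [Field k] : ee k 0 = 2 := by
  rw [ee, neg_zero, ← AddMonoidAlgebra.one_def]
  exact one_add_one_eq_two

private theorem hs_two {k K : Type} [Field k] [Field K] [Algebra k K] {w : K → ℤ}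
    (ht : Triv k w) : w (-2) = 0 := by
  have h := ht (-2)
  rwa [map_neg, map_ofNat] at h

theorem p_hs (hA1 : F2D.S_A1) : S_hs := by
  intro k K Λ M _ _ _ _ _ B res T cl π hG hR hno w hv ht hsg
  by_contra hne
  push Not at hne
  apply hno
  refine hA1 Λ K ℤ M T w cl π hG.pc hG.irr hv ⟨1, one_pos, fun f _ => ⟨w f, by simp⟩⟩ hG.rk
    hG.comm ?_
  intro l hl hcl
  obtain ⟨t, htl, htr⟩ := hR l
  have hres : res (t - 2) = 0 := by
    rw [map_sub, htr, hcl, toAdd_one, hs_ee, map_ofNat, sub_self]
  have hval : ((t - 2 : B) : K) = T l + (-2) := by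
    rw [← htl, ← sub_eq_add_neg]
    rfl
  have h0 : T l + (-2) = 0 := by
    by_contra hn
    have h1 : w (T l + (-2)) ≤ 0 := by
      have := hsg (t - 2) (by rw [hval]; exact hn)
      rwa [hval] at this
    have h2 : 0 ≤ w (T l + (-2)) := by
      by_cases hT : T l = 0
      · rw [hT, zero_add, hs_two ht]
      · by_cases h22 : (-2 : K) = 0
        · rw [h22, add_zero]
          exact hl
        · refine le_trans ?_ (hv.add (T l) (-2) hT h22 hn)
          rw [hs_two ht]
          exact le_min hl le_rfl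
    exact hne (t - 2) hres (by rw [hval]; exact hn) (by rw [hval]; exact le_antisymm h1 h2)
  exact (hG.two l hcl (by rw [← sub_eq_zero, sub_eq_add_neg]; exact h0)).1

end Pool.Agent.F2S
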