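import Pool.Agent.Lib.MP_305fdd_al.F2.S.Stm

/-!
# MP_305fdd_al, F_2 project, section S: [F2S rf]
-/

set_option autoImplicit false

namespace Pool.Agent.F2S

open Pool.Agent.F2Ch Pool.Agent.F2 Pool.Agent.F2W Pool.Agent.F2D Pool.Agent.F2RF Polynomial

private theorem rf_part_coeff {κ : Type} [Field κ] {r : ℕ} (u : Fin r → ℤ) (c : ℤ)
    (P : AddMonoidAlgebra κ (Fin r → ℤ)) (m : Fin r → ℤ) (hm : (part u c P).coeff m ≠ 0) :
    wt u m = c ∧ (part u c P).coeff m = P.coeff m := by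
  classical
  have h : (part u c P).coeff m = if wt u m = c then P.coeff m else 0 := by
    unfold part
    rw [AddMonoidAlgebra.coeff_ofCoeff, Finsupp.filter_apply]
  by_cases h1 : wt u m = c
  · rw [if_pos h1] at h
    exact ⟨h1, h⟩
  · rw [if_neg h1] at h
    exact absurd h hm

theorem p_rf (hX1 : S_X1) (hX2 : S_X2) (hR7 : F2W.S_R7) (hR8 : F2W.S_R8) : S_rf := by
  intro p _ k K κ Γ _ _ _ _ _ _ _ _ _ _ n g hg b0 ρ0 hb0 φ hφ hφ1 V x ex ac φb N L hch u w hgood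
    hon hu
  have : CharP κ p := charP_of_injective_algebraMap (algebraMap k κ).injective p
  obtain ⟨Φ, hΦ⟩ := hX1 p κ 2 φb hch.pinv
  obtain ⟨AC, hAC⟩ := hch.lform ℤ u w Φ hΦ hgood hon
  obtain ⟨r', s', κ', fκ', aκ', x', ex', ac', φ', N', L', hch', -, -, -, -⟩ :=
    hX2 p k K ℤ n g hg 3 b0 ρ0 hb0 φ hφ hφ1 w hon.inz
  obtain ⟨ι, h1, h2, h3, h4⟩ := hR7 p k K κ κ' n 2 g φ x L Φ u w AC hAC hΦ.pinv hon.inz.isv r' x'
    ac' hch'.isac φ' hch'.res
  obtain ⟨i, y, h5, h6, h7⟩ := hR8 p κ κ' φb Φ φ' u ι hu hch.pinv hch.one hΦ hch'.pinv hch'.one h3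
    h4
  refine ⟨κ', fκ', aκ', r', x', ac', φ', i, y, Φ, AC, ι, hch'.isac, hch'.res, h6, hAC, h1, h5, ?_⟩
  intro q hq hwq
  have e1 : ι (ac' (MvPolynomial.aeval g q)) =
      toLF (part u 0 (L (MvPolynomial.aeval g q))) := by
    rw [h1 _ hq hwq, hAC.eq q hq, hwq]
  refine ⟨h7 _ _ (fun m hm => (rf_part_coeff u 0 _ m hm).1) e1, ?_⟩
  intro hex
  refine ⟨(L (MvPolynomial.aeval g q)).coeff 0, ι.injective ?_⟩
  rw [e1, h5]
  congr 1
  ext m
  rw [AddMonoidAlgebra.coeff_single]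
  by_cases hm : (part u 0 (L (MvPolynomial.aeval g q))).coeff m = 0
  · rw [hm]
    by_cases hm0 : m = 0
    · subst hm0
      rw [Finsupp.single_eq_same]
      by_contra hne
      apply hne
      classical
      have h : (part u 0 (L (MvPolynomial.aeval g q))).coeff 0 =
          (L (MvPolynomial.aeval g q)).coeff 0 := by
        unfold part
        rw [AddMonoidAlgebra.coeff_ofCoeff, Finsupp.filter_apply, if_pos]
        simp [wt]
      rw [← h, hm]
    · rw [Finsupp.single_eq_of_ne hm0]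
  · obtain ⟨ha, hb⟩ := rf_part_coeff u 0 _ m hm
    rw [hb] at hm ⊢
    rcases hex m hm with h | h
    · subst h
      rw [Finsupp.single_eq_same]
    · exact absurd ha (ne_of_gt h)

end Pool.Agent.F2S
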