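import Pool.Agent.Lib.MP_305fdd_al.F2.S.Stm

/-!
# MP_305fdd_al, F_2 project, section S: [F2S sg]
-/

set_option autoImplicit false

namespace Pool.Agent.F2S

open Pool.Agent.F2Ch Pool.Agent.F2 Pool.Agent.F2W Pool.Agent.F2D Pool.Agent.F2RF Polynomial

section
variable {K Γ : Type} [Field K] [AddCommGroup Γ] [LinearOrder Γ] [IsOrderedAddMonoid Γ]

private theorem sg_one {v : K → Γ} (hv : IsV v) : v 1 = 0 := by
  have h := hv.mul 1 1 one_ne_zero one_ne_zero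
  rw [one_mul] at h
  exact left_eq_add.mp h

private theorem sg_pow {v : K → Γ} (hv : IsV v) {x : K} (hx : x ≠ 0) (n : ℕ) :
    v (x ^ n) = n • v x := by
  induction n with
  | zero => rw [pow_zero, sg_one hv, zero_smul]
  | succ n ih => rw [pow_succ, hv.mul _ _ (pow_ne_zero n hx) hx, ih, succ_nsmul]

end

private theorem sg_wt (u e : Fin 2 → ℤ) (m : Fin 2 → ℤ) :
    wt (fun i => toLex (u i, e i)) m = toLex (wt u m, wt e m) := by
  unfold wt
  rw [Fin.sum_univ_two, Fin.sum_univ_two, Fin.sum_univ_two]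
  rfl

private theorem sg_wt_neg (e m : Fin 2 → ℤ) : wt (-e) m = - wt e m := by
  unfold wt
  rw [Fin.sum_univ_two, Fin.sum_univ_two]
  simp only [Pi.neg_apply, smul_eq_mul]
  ring

private theorem sg_le {a b : ℤ} (h : (0 : ℤ ×ₗ ℤ) ≤ toLex (a, b)) : 0 ≤ a := by
  rcases Prod.Lex.le_iff.mp h with h | h
  · exact le_of_lt h
  · exact le_of_eq h.1

private theorem sg_lt {b : ℤ} (h : (0 : ℤ ×ₗ ℤ) < toLex (0, b)) : 0 < b := by
  rcases Prod.Lex.lt_iff.mp h with h | h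
  · exact absurd h (lt_irrefl _)
  · exact h.2

private theorem sg_pos {K : Type} [Field K] {w : K → ℤ} {W : K → ℤ ×ₗ ℤ}
    (h1 : ∀ f, (ofLex (W f)).1 = w f) {f : K} (hf : w f ≤ 0) (h : 0 < W f) :
    w f = 0 ∧ ∃ c : ℤ, 0 < c ∧ W f = toLex (0, c) := by
  have h2 : W f = toLex (w f, (ofLex (W f)).2) := by rw [← h1 f]; rfl
  rw [h2] at h
  have h3 : w f = 0 := le_antisymm hf (sg_le h.le)
  rw [h3] at h h2
  exact ⟨h3, _, sg_lt h, h2⟩

theorem p_sg : S_sg := by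
  intro p k K κ _ _ _ _ n g φ L B res hB u e w W W' hon hon' hW1 hW1' hneg hZ hZ'
  by_contra hcon
  rw [not_or] at hcon
  obtain ⟨hc1, hc2⟩ := hcon
  push Not at hc1 hc2
  obtain ⟨f, hf0, hfG, hfne⟩ := hc1
  obtain ⟨f', hf0', hfG', hfne'⟩ := hc2
  have hp : 0 < W (f : K) := (hZ f hf0 hfG).resolve_left hfne
  have hp' : 0 < W' (f' : K) := (hZ' f' hf0' hfG').resolve_left hfne'
  obtain ⟨hwf, c, hc, hWf⟩ := sg_pos hW1 (hneg f hfne) hp
  obtain ⟨-, c', hc', hWf'⟩ := sg_pos hW1' (hneg f' hfne') hp'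
  obtain ⟨q, hq⟩ := hB f
  have hqne : MvPolynomial.aeval g q ≠ 0 := by rw [hq]; exact hfne
  obtain ⟨-, m, hm, hmW⟩ := hon'.min q hqne
  obtain ⟨hge, -⟩ := hon.min q hqne
  have hge' := hge m hm
  rw [hq, sg_wt] at hmW hge'
  have hu : wt u m = 0 := by
    rw [← hwf, ← hW1' f, hmW]; rfl
  rw [sg_wt_neg] at hmW
  rw [hu] at hmW hge'
  rw [hWf] at hge'
  have hca : c ≤ wt e m := by
    rcases Prod.Lex.le_iff.mp hge' with h | h
    · exact absurd h (lt_irrefl _)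
    · exact h.2
  have ha : 0 < wt e m := lt_of_lt_of_le hc hca
  set a := wt e m with ha_def
  have hn1 : c'.toNat ≠ 0 := by omega
  have hn2 : a.toNat ≠ 0 := by omega
  have hne1 : (f : K) ^ c'.toNat ≠ 0 := pow_ne_zero _ hfne
  have hne2 : (f' : K) ^ a.toNat ≠ 0 := pow_ne_zero _ hfne'
  have hval : W' ((f : K) ^ c'.toNat * (f' : K) ^ a.toNat) = 0 := by
    rw [hon'.inz.isv.mul _ _ hne1 hne2, sg_pow hon'.inz.isv hfne, sg_pow hon'.inz.isv hfne', hmW,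
      hWf']
    have e1 : ((c'.toNat : ℕ) : ℤ) = c' := Int.toNat_of_nonneg hc'.le
    have e2 : ((a.toNat : ℕ) : ℤ) = a := Int.toNat_of_nonneg ha.le
    have e3 : c'.toNat • (toLex ((0 : ℤ), -a) : ℤ ×ₗ ℤ) + a.toNat • (toLex ((0 : ℤ), c') : ℤ ×ₗ ℤ) =
        toLex (c'.toNat • (0 : ℤ) + a.toNat • (0 : ℤ), c'.toNat • (-a) + a.toNat • c') := rfl
    rw [e3]
    have e4 : c'.toNat • (0 : ℤ) + a.toNat • (0 : ℤ) = 0 := by simp
    have e5 : c'.toNat • (-a) + a.toNat • c' = 0 := by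
      rw [nsmul_eq_mul, nsmul_eq_mul, e1, e2]; ring
    rw [e4, e5]
    rfl
  have hres : res (f ^ c'.toNat * f' ^ a.toNat) = 0 := by
    rw [map_mul, map_pow, hf0, zero_pow hn1, zero_mul]
  have hcoe : ((f ^ c'.toNat * f' ^ a.toNat : B) : K) = (f : K) ^ c'.toNat * (f' : K) ^ a.toNat := by
    push_cast
    rfl
  have hgt := hZ' (f ^ c'.toNat * f' ^ a.toNat) hres (Or.inr (by rw [hcoe, hval]))
  rcases hgt with h | h
  · rw [hcoe] at h
    exact mul_ne_zero hne1 hne2 h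
  · rw [hcoe, hval] at h
    exact lt_irrefl _ h

end Pool.Agent.F2S
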