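import Pool.Agent.Lib.MP_305fdd_al.F2.S.Stm

/-!
# MP_305fdd_al, F_2 project, section S: [F2S tr] the residue field of a flag
-/

set_option autoImplicit false

namespace Pool.Agent.F2S

open Pool.Agent.F2Ch Pool.Agent.F2 Pool.Agent.F2W Pool.Agent.F2D Pool.Agent.F2RF Polynomial

theorem p_tr (hX2 : S_X2) (hZ3 : S_Z3) : S_tr := by
  intro p _ k K _ _ _ _ _ n g hg b0 ρ0 hb φ hφ hφ1 W hW x1 x2 hx1 hx2 hind f h hf hh
  obtain ⟨r, s, κ, i1, i2, x, ex, ac, φb, N, L, hCh, hrs, htr, -, -⟩ :=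
    hX2 p k K (ℤ ×ₗ ℤ) n g hg 3 b0 ρ0 hb φ hφ hφ1 W hW
  have hr : 2 ≤ r := by
    by_contra hlt
    have hlt' : r = 0 ∨ r = 1 := by omega
    rcases hlt' with rfl | rfl
    · have h1 : W x1 = 0 := by
        rw [hCh.vb.gen x1 hx1]
        simp [wt]
      have h2 : W x2 = 0 := by
        rw [hCh.vb.gen x2 hx2]
        simp [wt]
      have h3 := hind 1 0 (by rw [h1, h2]; simp)
      exact one_ne_zero h3.1
    · have h1 : W x1 = ex x1 0 • W (x 0) := by
        rw [hCh.vb.gen x1 hx1]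
        simp [wt]
      have h2 : W x2 = ex x2 0 • W (x 0) := by
        rw [hCh.vb.gen x2 hx2]
        simp [wt]
      have h3 := hind (ex x2 0) (- ex x1 0) (by
        rw [h1, h2, neg_smul, smul_smul, smul_smul, mul_comm, add_neg_cancel])
      have h4 : W x1 = 0 := by
        have h5 : ex x1 0 = 0 := neg_eq_zero.1 h3.2
        rw [h1, h5, zero_smul]
      have h6 : W x2 = 0 := by
        rw [h2, h3.1, zero_smul]
      have h7 := hind 1 0 (by rw [h4, h6]; simp)
      exact one_ne_zero h7.1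
  have hs : s ≤ 1 := by omega
  refine hZ3 k K (ℤ ×ₗ ℤ) κ W hW.isv hW.triv r x ac hCh.isac ?_ f h hf hh
  rw [htr]
  exact_mod_cast hs

end Pool.Agent.F2S
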