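import Pool.Agent.Lib.MP_305fdd_al.F2.S.Stm

/-!
# MP_305fdd_al, F_2 project, section S: [F2S tr2] the residue field of a nontrivial valuation
-/

set_option autoImplicit false

namespace Pool.Agent.F2S

open Pool.Agent.F2Ch Pool.Agent.F2 Pool.Agent.F2W Pool.Agent.F2D Pool.Agent.F2RF Polynomial

theorem p_tr2 (hX2 : S_X2) (hZ7 : S_Z7) : S_tr2 := by
  intro p _ k K _ _ _ _ _ n g hg b0 ρ0 hb φ hφ hφ1 w hw hnt f h h' hf hh hh'
  obtain ⟨r, s, κ, i1, i2, x, ex, ac, φb, N, L, hCh, hrs, htr, -, -⟩ :=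
    hX2 p k K ℤ n g hg 3 b0 ρ0 hb φ hφ hφ1 w hw
  have hr : 1 ≤ r := by
    by_contra hlt
    have hlt' : r = 0 := by omega
    subst hlt'
    obtain ⟨f0, hf0⟩ := hnt
    by_cases h0 : f0 = 0
    · exact hf0 (by rw [h0, hw.isv.zero])
    · exact hf0 (by rw [hCh.vb.gen f0 h0]; simp [wt])
  have hs : s ≤ 2 := by omega
  refine hZ7 k K ℤ κ w hw.isv hw.triv r x ac hCh.isac ?_ f h h' hf hh hh'
  rw [htr]
  exact_mod_cast hs

end Pool.Agent.F2S
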