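import Pool.Agent.Lib.MP_305fdd_al.F2.S.Stm

/-!
# MP_305fdd_al, F_2 project, section S: the piece [F2S un]
-/

set_option autoImplicit false

namespace Pool.Agent.F2S

open Pool.Agent.F2Ch Pool.Agent.F2 Pool.Agent.F2W Pool.Agent.F2D Pool.Agent.F2RF Polynomial

private theorem un_wt (u e m : Fin 2 → ℤ) :
    wt (fun i => (toLex (u i, e i) : ℤ ×ₗ ℤ)) m = toLex (wt u m, wt e m) := by
  simp only [wt, Fin.sum_univ_two]
  rfl

private theorem un_part {κ : Type} [Field κ] (u : Fin 2 → ℤ) (c : ℤ)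
    (P : AddMonoidAlgebra κ (Fin 2 → ℤ)) (m : Fin 2 → ℤ) :
    (part u c P).coeff m = if wt u m = c then P.coeff m else 0 := by
  classical
  unfold part
  simp [Finsupp.filter_apply]

/-- comparison of the values for a refined weight when the parts of minimal weight have the same exponents -/
private theorem un_le {κ : Type} [Field κ] (u e : Fin 2 → ℤ) (P Q : AddMonoidAlgebra κ (Fin 2 → ℤ))
    (s : ℤ) (hP : IsMinW u P s) (VP VQ : ℤ ×ₗ ℤ)
    (hVP : IsMinW (fun i => (toLex (u i, e i) : ℤ ×ₗ ℤ)) P VP)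
    (hVQ : IsMinW (fun i => (toLex (u i, e i) : ℤ ×ₗ ℤ)) Q VQ)
    (h : ∀ m, wt u m = s → P.coeff m ≠ 0 → Q.coeff m ≠ 0) : VQ ≤ VP := by
  obtain ⟨hge, m, hm, hmV⟩ := hVP
  obtain ⟨hge', m1, hm1, hm1s⟩ := hP
  have h1 : s ≤ wt u m := hge' m hm
  have h2 : VP ≤ wt (fun i => (toLex (u i, e i) : ℤ ×ₗ ℤ)) m1 := hge m1 hm1
  have h3 : wt u m = s := by
    apply le_antisymm _ h1
    rw [hmV, un_wt, un_wt, Prod.Lex.toLex_le_toLex] at h2
    rcases h2 with h2 | h2
    · rw [hm1s]; exact h2.le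
    · rw [hm1s]; exact h2.1.le
  rw [hmV]
  exact hVQ.1 m (h m h3 hm)

theorem p_un : S_un := by
  intro p k K κ _ _ _ _ _ n g hgen φ x L Φ u e w W AC hL hw hW ψ c hψ hwψ hAC
  obtain ⟨a, b, hb, hab⟩ := hgen ψ
  have ha : MvPolynomial.aeval g a ≠ 0 := by
    rw [← hab]; exact mul_ne_zero hψ hb
  have hv : w (MvPolynomial.aeval g a) = w (MvPolynomial.aeval g b) := by
    rw [← hab, hw.inz.isv.mul _ _ hψ hb, hwψ, zero_add]
  have hV : W (MvPolynomial.aeval g a) = W ψ + W (MvPolynomial.aeval g b) := by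
    rw [← hab, hW.inz.isv.mul _ _ hψ hb]
  have hc : c ≠ 0 := by
    intro h0
    apply hL.ne ψ hψ
    rw [hAC, h0]
    simp
  have h1 : toLF (part u (w (MvPolynomial.aeval g a)) (L (MvPolynomial.aeval g a))) =
      toLF (AddMonoidAlgebra.single 0 c) *
        toLF (part u (w (MvPolynomial.aeval g b)) (L (MvPolynomial.aeval g b))) := by
    rw [← hL.eq a ha, ← hL.eq b hb, ← hAC, ← hab, hL.mul]
  have h2 : part u (w (MvPolynomial.aeval g b)) (L (MvPolynomial.aeval g a)) =
      AddMonoidAlgebra.single 0 c *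
        part u (w (MvPolynomial.aeval g b)) (L (MvPolynomial.aeval g b)) := by
    apply IsFractionRing.injective (AddMonoidAlgebra κ (Fin 2 → ℤ)) (LF κ 2)
    rw [map_mul, ← hv]
    rw [hv] at h1 ⊢
    exact h1
  have h3 : ∀ m : Fin 2 → ℤ, wt u m = w (MvPolynomial.aeval g b) →
      (L (MvPolynomial.aeval g a)).coeff m = c * (L (MvPolynomial.aeval g b)).coeff m := by
    intro m hm
    have h := congrArg (fun P : AddMonoidAlgebra κ (Fin 2 → ℤ) => P.coeff m) h2
    simp only [AddMonoidAlgebra.coeff_single_zero_mul, un_part, if_pos hm] at h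
    exact h
  have h4 : W (MvPolynomial.aeval g b) ≤ W (MvPolynomial.aeval g a) := by
    refine un_le u e (L (MvPolynomial.aeval g a)) (L (MvPolynomial.aeval g b))
      (w (MvPolynomial.aeval g b)) ?_ _ _ (hW.min a ha) (hW.min b hb) ?_
    · rw [← hv]; exact hw.min a ha
    · intro m hm hP hQ
      apply hP
      rw [h3 m hm, hQ, mul_zero]
  have h5 : W (MvPolynomial.aeval g a) ≤ W (MvPolynomial.aeval g b) := by
    refine un_le u e (L (MvPolynomial.aeval g b)) (L (MvPolynomial.aeval g a))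
      (w (MvPolynomial.aeval g b)) (hw.min b hb) _ _ (hW.min b hb) (hW.min a ha) ?_
    intro m hm hP hQ
    rw [h3 m hm] at hQ
    exact mul_ne_zero hc hP hQ
  have h6 : W (MvPolynomial.aeval g a) = W (MvPolynomial.aeval g b) := le_antisymm h5 h4
  rw [h6] at hV
  have h7 : W ψ + W (MvPolynomial.aeval g b) = 0 + W (MvPolynomial.aeval g b) := by
    rw [zero_add]; exact hV.symm
  exact add_right_cancel h7

end Pool.Agent.F2S
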