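import Pool.Agent.Lib.MP_305fdd_al.F2.S.Stm

/-!
# MP_305fdd_al, F_2 project, section S: the piece [F2S we]
-/

set_option autoImplicit false

namespace Pool.Agent.F2S

open Pool.Agent.F2Ch Pool.Agent.F2 Pool.Agent.F2W Pool.Agent.F2D Pool.Agent.F2RF Polynomial

private theorem we_wt (u e m : Fin 2 → ℤ) :
    wt (fun i => (toLex (u i, e i) : ℤ ×ₗ ℤ)) m = toLex (wt u m, wt e m) := by
  simp only [wt, Fin.sum_univ_two]
  rfl

theorem p_we : S_we := by
  intro p k K κ _ _ _ _ n g φ L u e w W hw hW q hq h0 hm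
  have h1 := hw.min q hq
  have h2 := hW.min q hq
  obtain ⟨-, m, hmc, hm0⟩ := h1
  rw [h0] at hm0
  have hmz : m = 0 := by
    rcases hm m hmc with h | h
    · exact h
    · rw [← hm0] at h
      exact absurd h (lt_irrefl _)
  subst hmz
  obtain ⟨hge, m', hm'c, hm'⟩ := h2
  have hle : W (MvPolynomial.aeval g q) ≤ wt (fun i => (toLex (u i, e i) : ℤ ×ₗ ℤ)) 0 :=
    hge 0 hmc
  have hz : wt (fun i => (toLex (u i, e i) : ℤ ×ₗ ℤ)) 0 = 0 := by
    simp [wt]
  rcases hm m' hm'c with h | h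
  · rw [hm', h, hz]
  · exfalso
    rw [hm', we_wt, hz] at hle
    have h3 : (toLex (wt u m', wt e m') : ℤ ×ₗ ℤ) ≤ toLex ((0 : ℤ), (0 : ℤ)) := hle
    rw [Prod.Lex.toLex_le_toLex] at h3
    rcases h3 with h3 | h3
    · exact absurd h3 (by simp only [not_lt]; exact h.le)
    · exact absurd h3.1 (ne_of_gt h)

end Pool.Agent.F2S
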