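import Pool.Agent.Lib.MP_305fdd_al.F2.S.p_n0
import Pool.Agent.Lib.MP_305fdd_al.F2.S.p_fl
import Pool.Agent.Lib.MP_305fdd_al.F2.S.p_we
import Pool.Agent.Lib.MP_305fdd_al.F2.S.p_tr
import Pool.Agent.Lib.MP_305fdd_al.F2.S.p_tr2
import Pool.Agent.Lib.MP_305fdd_al.F2.S.p_hs
import Pool.Agent.Lib.MP_305fdd_al.F2.S.p_dp
import Pool.Agent.Lib.MP_305fdd_al.F2.S.p_sg
import Pool.Agent.Lib.MP_305fdd_al.F2.S.p_rh
import Pool.Agent.Lib.MP_305fdd_al.F2.S.p_pr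
import Pool.Agent.Lib.MP_305fdd_al.F2.S.p_nl
import Pool.Agent.Lib.MP_305fdd_al.F2.S.p_rf
import Pool.Agent.Lib.MP_305fdd_al.F2.S.p_un
import Pool.Agent.Lib.MP_305fdd_al.F2.S.p_ct
import Pool.Agent.Lib.MP_305fdd_al.F2.S.p_LSz
import Pool.Agent.Lib.MP_305fdd_al.F2.S.p_LS
import Pool.Agent.Lib.MP_305fdd_al.F2.ChMain
import Pool.Agent.Lib.MP_305fdd_al.F2.D.Main
import Pool.Agent.Lib.MP_305fdd_al.F2.W.Z0
import Pool.Agent.Lib.MP_305fdd_al.F2.W.Z2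
import Pool.Agent.Lib.MP_305fdd_al.F2.W.Z3
import Pool.Agent.Lib.MP_305fdd_al.F2.W.Z4
import Pool.Agent.Lib.MP_305fdd_al.F2.W.Z6
import Pool.Agent.Lib.MP_305fdd_al.F2.W.Z7
import Pool.Agent.Lib.MP_305fdd_al.F2.W.O2
import Pool.Agent.Lib.MP_305fdd_al.F2.W.R1
import Pool.Agent.Lib.MP_305fdd_al.F2.W.R7
import Pool.Agent.Lib.MP_305fdd_al.F2.W.R8

/-!
# MP_305fdd_al, F_2 project, section S: Lemma S without hypotheses (`t_LS`), and the field `l8` of `LocF`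
-/

set_option autoImplicit false

namespace Pool.Agent.F2S

open Pool.Agent.F2Ch Pool.Agent.F2 Pool.Agent.F2W Pool.Agent.F2D

theorem t_hs : S_hs := p_hs m_A1
theorem t_tr : S_tr := p_tr t_X2 p_Z3
theorem t_tr2 : S_tr2 := p_tr2 t_X2 p_Z7
theorem t_dp : S_dp := p_dp (p_Z6 p_Z4)
theorem t_rf : S_rf := p_rf t_X1 t_X2 p_R7 p_R8
theorem t_ct : S_ct := p_ct p_rh p_pr p_nl p_R1 p_O2

/-- LEMMA S, integer form -/
theorem t_LSz : S_LSz :=
  p_LSz p_n0 p_fl p_we t_tr t_tr2 t_hs t_dp p_sg t_rf p_un t_ct (p_Z2 p_Z0) p_O2 m_A3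

/-- LEMMA S: a semi-good discrete point inside a two-dimensional chart has no element of class `≠ 0`
which is elliptic along both sides (if `Λ` does not map onto `F_2`). -/
theorem t_LS : S_LS := p_LS t_LSz

end Pool.Agent.F2S
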