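import Pool.Agent.Lib.MP_305fdd_al.F2.S.Stm

/-!
# MP_305fdd_al, F_2 project, section S: the piece [F2S pr]
-/

set_option autoImplicit false

namespace Pool.Agent.F2S

open Pool.Agent.F2Ch Pool.Agent.F2 Pool.Agent.F2W Pool.Agent.F2D Pool.Agent.F2RF Polynomial

private theorem pr_rec {Λ K : Type} [Group Λ] [Field K] {T : Λ → K} (hT : PC T) (l : Λ) (m : ℤ) :
    T (l ^ (m + 2)) = T l * T (l ^ (m + 1)) - T (l ^ m) := by
  have h := hT.rel (l ^ (m + 1)) l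
  have e1 : l ^ (m + 1) * l = l ^ (m + 2) := by
    rw [← zpow_add_one, add_assoc]; rfl
  have e2 : l ^ (m + 1) * l⁻¹ = l ^ m := by
    rw [zpow_add_one, mul_inv_cancel_right]
  rw [e1, e2] at h
  linear_combination h

private theorem pr_inv {Λ K : Type} [Group Λ] [Field K] {T : Λ → K} (hT : PC T) (l : Λ) :
    T l⁻¹ = T l := by
  have h := hT.rel 1 l
  rw [one_mul, one_mul, hT.one] at h
  linear_combination h

/-- the statement for one exponent -/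
private def pr_Q {Λ K κ : Type} [Group Λ] [Field K] [Field κ] (T : Λ → K) (O : Subring K)
    (ρ : O →+* κ) (l : Λ) (hl : T l ∈ O) (m : ℤ) : Prop :=
  ∃ h : T (l ^ m) ∈ O,
      (∀ Ψ : κ, Ψ ≠ 0 → ρ ⟨T l, hl⟩ = Ψ + Ψ⁻¹ → ρ ⟨T (l ^ m), h⟩ = Ψ ^ m + Ψ ^ (-m)) ∧
      ∀ S : Subring κ, ρ ⟨T l, hl⟩ ∈ S → ρ ⟨T (l ^ m), h⟩ ∈ S

private theorem pr_nat {Λ K κ : Type} [Group Λ] [Field K] [Field κ] (T : Λ → K) (hT : PC T)
    (O : Subring K) (ρ : O →+* κ) (l : Λ) (hl : T l ∈ O) (n : ℕ) :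
    pr_Q T O ρ l hl (n : ℤ) ∧ pr_Q T O ρ l hl ((n : ℤ) + 1) := by
  induction n with
  | zero =>
    constructor
    · have h2 : (2 : K) ∈ O := by
        have := O.add_mem O.one_mem O.one_mem
        rwa [one_add_one_eq_two] at this
      have e0 : T (l ^ ((0 : ℕ) : ℤ)) = 2 := by
        rw [Nat.cast_zero, zpow_zero, hT.one]
      refine ⟨by rw [e0]; exact h2, ?_⟩
      have e1 : (⟨T (l ^ ((0 : ℕ) : ℤ)), by rw [e0]; exact h2⟩ : O) = 1 + 1 := by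
        apply Subtype.ext
        show T (l ^ ((0 : ℕ) : ℤ)) = 1 + 1
        rw [e0, one_add_one_eq_two]
      rw [e1, map_add, map_one]
      refine ⟨?_, ?_⟩
      · intro Ψ hΨ _
        simp
      · intro S _
        exact S.add_mem S.one_mem S.one_mem
    · have e0 : T (l ^ (((0 : ℕ) : ℤ) + 1)) = T l := by
        rw [Nat.cast_zero, zero_add, zpow_one]
      refine ⟨by rw [e0]; exact hl, ?_⟩
      have e1 : (⟨T (l ^ (((0 : ℕ) : ℤ) + 1)), by rw [e0]; exact hl⟩ : O) = ⟨T l, hl⟩ :=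
        Subtype.ext e0
      rw [e1]
      refine ⟨?_, ?_⟩
      · intro Ψ hΨ h
        rw [h]
        simp
      · intro S h
        exact h
  | succ n ih =>
    obtain ⟨ih0, ih1⟩ := ih
    have hc : (((n + 1 : ℕ) : ℤ)) = (n : ℤ) + 1 := by push_cast; ring
    rw [hc]
    refine ⟨ih1, ?_⟩
    obtain ⟨m0, a0, b0⟩ := ih0
    obtain ⟨m1, a1, b1⟩ := ih1
    have hc2 : (n : ℤ) + 1 + 1 = (n : ℤ) + 2 := by ring
    rw [hc2]
    have e0 := pr_rec hT l (n : ℤ)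
    have hm : T (l ^ ((n : ℤ) + 2)) ∈ O := by
      rw [e0]
      exact O.sub_mem (O.mul_mem hl m1) m0
    refine ⟨hm, ?_⟩
    have e1 : (⟨T (l ^ ((n : ℤ) + 2)), hm⟩ : O) =
        ⟨T l, hl⟩ * ⟨T (l ^ ((n : ℤ) + 1)), m1⟩ - ⟨T (l ^ (n : ℤ)), m0⟩ :=
      Subtype.ext e0
    rw [e1, map_sub, map_mul]
    refine ⟨?_, ?_⟩
    · intro Ψ hΨ h
      rw [a0 Ψ hΨ h, a1 Ψ hΨ h, h]
      have i1 : Ψ ^ ((n : ℤ) + 2) = Ψ ^ (n : ℤ) * Ψ * Ψ := by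
        rw [show (n : ℤ) + 2 = (n : ℤ) + 1 + 1 by ring, zpow_add_one₀ hΨ, zpow_add_one₀ hΨ]
      have i2 : Ψ ^ ((n : ℤ) + 1) = Ψ ^ (n : ℤ) * Ψ := zpow_add_one₀ hΨ _
      have i3 : Ψ ^ (-((n : ℤ) + 1)) = Ψ ^ (-(n : ℤ)) * Ψ⁻¹ := by
        rw [neg_add, ← sub_eq_add_neg, zpow_sub_one₀ hΨ]
      have i4 : Ψ ^ (-((n : ℤ) + 2)) = Ψ ^ (-(n : ℤ)) * Ψ⁻¹ * Ψ⁻¹ := by
        rw [show -((n : ℤ) + 2) = -(n : ℤ) - 1 - 1 by ring, zpow_sub_one₀ hΨ, zpow_sub_one₀ hΨ]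
      rw [i1, i2, i3, i4]
      have hc := mul_inv_cancel₀ hΨ
      linear_combination (Ψ ^ (n : ℤ) + Ψ ^ (-(n : ℤ))) * hc
    · intro S h
      exact S.sub_mem (S.mul_mem h (b1 S h)) (b0 S h)

theorem p_pr : S_pr := by
  intro Λ K κ _ _ _ T hT O ρ l hl m
  show pr_Q T O ρ l hl m
  obtain ⟨n, rfl | rfl⟩ := Int.eq_nat_or_neg m
  · exact (pr_nat T hT O ρ l hl n).1
  · obtain ⟨m0, a0, b0⟩ := (pr_nat T hT O ρ l hl n).1
    have e0 : T (l ^ (-(n : ℤ))) = T (l ^ (n : ℤ)) := by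
      rw [zpow_neg, pr_inv hT]
    refine ⟨by rw [e0]; exact m0, ?_⟩
    have e1 : (⟨T (l ^ (-(n : ℤ))), by rw [e0]; exact m0⟩ : O) = ⟨T (l ^ (n : ℤ)), m0⟩ :=
      Subtype.ext e0
    rw [e1]
    refine ⟨?_, b0⟩
    intro Ψ hΨ h
    rw [a0 Ψ hΨ h, neg_neg, add_comm]

end Pool.Agent.F2S
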